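import Mathlib

/-!
ST6B row M1. A lower bound for Euler's totient: n^(7/8) ≤ (5/2) φ(n).

PROOF. `totient_bound8`: as in Pool/Agent/ST5/N/V1.lean. For a prime power p^k, k ≥ 1: (p^k)^7 / φ(p^k)^8 = p^(8-k) / (p-1)^8 ≤ p^7 / (p-1)^8:
 p = 2: ≤ 128; p = 3: ≤ 2187/256; p = 5: ≤ 78125/65536; p ≥ 7: ≤ 1 (7^7 ≤ 6^8; for p ≥ 7 in general p^7 ≤ (p-1)^8, e.g. by p ≤ (7/6)(p-1) and
 (7/6)^7 ≤ 6 ≤ p-1). The product 128 * 2187/256 * 78125/65536 = 1303.6 ≤ 390625/256 = (5/2)^8. Write n = 2^a 3^b 5^c n' with n' coprime to 30, and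
 the multiplicativity of φ.
`totient_real`: raise to the power 8: ((n : ℝ)^(7/8))^8 = n^7 (`Real.rpow_natCast`, `Real.rpow_mul`), `pow_le_pow_left₀`/`abs_le_of_sq_le`-type:
 `le_of_pow_le_pow_left₀`.
-/

namespace Pool.Agent.ST5

/-- the base inequality for primes `≥ 7` -/
lemma M1_prime (p : ℕ) (hp : 7 ≤ p) : p ^ 7 ≤ (p - 1) ^ 8 := by
  obtain ⟨q, rfl⟩ : ∃ q, p = q + 1 := ⟨p - 1, by omega⟩
  have hq : 6 ≤ q := by omega
  simp only [Nat.add_sub_cancel]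
  have h1 : (6 * (q + 1)) ^ 7 ≤ (7 * q) ^ 7 := Nat.pow_le_pow_left (by omega) 7
  rw [mul_pow, mul_pow] at h1
  have h2 : 7 ^ 7 ≤ 6 ^ 7 * q := by
    calc 7 ^ 7 ≤ 6 ^ 7 * 6 := by norm_num
      _ ≤ 6 ^ 7 * q := Nat.mul_le_mul_left _ hq
  have h3 : 6 ^ 7 * (q + 1) ^ 7 ≤ 6 ^ 7 * q ^ 8 := by
    calc 6 ^ 7 * (q + 1) ^ 7 ≤ 7 ^ 7 * q ^ 7 := h1
      _ ≤ (6 ^ 7 * q) * q ^ 7 := Nat.mul_le_mul_right _ h2
      _ = 6 ^ 7 * q ^ 8 := by ring
  exact Nat.le_of_mul_le_mul_left h3 (by norm_num)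

/-- the inequality for a prime power, from the one for the prime -/
lemma M1_pp (p A B k : ℕ) (hp : p.Prime) (hAB : A ≤ B) (h : A * p ^ 7 ≤ B * (p - 1) ^ 8) :
    A * (p ^ k) ^ 7 ≤ B * (Nat.totient (p ^ k)) ^ 8 := by
  rcases Nat.eq_zero_or_pos k with hk | hk
  · subst hk
    simpa using hAB
  · obtain ⟨j, rfl⟩ : ∃ j, k = j + 1 := ⟨k - 1, by omega⟩
    rw [Nat.totient_prime_pow_succ hp]
    have hp0 : 0 < p ^ j := pow_pos hp.pos j
    calc A * (p ^ (j + 1)) ^ 7 = (p ^ j) ^ 7 * (A * p ^ 7) := by rw [pow_succ p j]; ring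
      _ ≤ (p ^ j) ^ 8 * (B * (p - 1) ^ 8) := by
          apply Nat.mul_le_mul _ h
          exact Nat.pow_le_pow_right hp0 (by norm_num)
      _ = B * (p ^ j * (p - 1)) ^ 8 := by ring

/-- the inequality for numbers coprime to `30` -/
lemma M1_cop (n : ℕ) : Nat.Coprime n 30 → n ^ 7 ≤ (Nat.totient n) ^ 8 := by
  induction n using Nat.recOnPosPrimePosCoprime with
  | prime_pow p k hp hk =>
    intro hc
    have hpc : Nat.Coprime p 30 := Nat.Coprime.of_dvd_left (dvd_pow_self p hk.ne') hc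
    have hp7 : 7 ≤ p := by
      by_contra hlt
      have h2 := hp.two_le
      have : p = 2 ∨ p = 3 ∨ p = 4 ∨ p = 5 ∨ p = 6 := by omega
      rcases this with h | h | h | h | h <;> subst h <;> revert hpc <;> decide
    have := M1_pp p 1 1 k hp le_rfl (by simpa using M1_prime p hp7)
    simpa using this
  | zero => intro h; exact absurd h (by decide)
  | one => intro _; simp
  | coprime a b ha hb hab iha ihb =>
    intro hc
    rw [Nat.totient_mul hab, mul_pow, mul_pow]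
    exact Nat.mul_le_mul (iha (Nat.Coprime.of_dvd_left (dvd_mul_right a b) hc))
      (ihb (Nat.Coprime.of_dvd_left (dvd_mul_left b a) hc))

theorem totient_bound8 (n : ℕ) (hn : 0 < n) : 256 * n ^ 7 ≤ 390625 * (Nat.totient n) ^ 8 := by
  obtain ⟨a, n1, h1, rfl⟩ := Nat.exists_eq_pow_mul_and_not_dvd hn.ne' 2 (by norm_num)
  have hn1 : n1 ≠ 0 := by rintro rfl; simp at h1
  obtain ⟨b, n2, h2, rfl⟩ := Nat.exists_eq_pow_mul_and_not_dvd hn1 3 (by norm_num)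
  have hn2 : n2 ≠ 0 := by rintro rfl; simp at h2
  obtain ⟨c, n3, h3, rfl⟩ := Nat.exists_eq_pow_mul_and_not_dvd hn2 5 (by norm_num)
  have e2 : Nat.Coprime 2 (3 ^ b * (5 ^ c * n3)) :=
    (Nat.Prime.coprime_iff_not_dvd Nat.prime_two).2 h1
  have e3 : Nat.Coprime 3 (5 ^ c * n3) :=
    (Nat.Prime.coprime_iff_not_dvd Nat.prime_three).2 h2
  have e5 : Nat.Coprime 5 n3 :=
    (Nat.Prime.coprime_iff_not_dvd Nat.prime_five).2 h3
  have f3 : Nat.Coprime 3 n3 := Nat.Coprime.of_dvd_right (dvd_mul_left n3 _) e3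
  have f2 : Nat.Coprime 2 n3 :=
    Nat.Coprime.of_dvd_right ((dvd_mul_left n3 _).trans (dvd_mul_left _ _)) e2
  have hc : Nat.Coprime n3 30 := by
    have h6 : Nat.Coprime (2 * 3) n3 := Nat.Coprime.mul_left f2 f3
    have h30 : Nat.Coprime (2 * 3 * 5) n3 := Nat.Coprime.mul_left h6 e5
    exact h30.symm
  have g0 := M1_cop n3 hc
  have g2 := M1_pp 2 1 128 a Nat.prime_two (by norm_num) (by norm_num)
  have g3 := M1_pp 3 256 2187 b Nat.prime_three (by norm_num) (by norm_num)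
  have g5 := M1_pp 5 65536 78125 c Nat.prime_five (by norm_num) (by norm_num)
  rw [Nat.totient_mul (Nat.Coprime.pow_left a e2), Nat.totient_mul (Nat.Coprime.pow_left b e3),
    Nat.totient_mul (Nat.Coprime.pow_left c e5)]
  generalize Nat.totient (2 ^ a) = A at g2 ⊢
  generalize Nat.totient (3 ^ b) = B at g3 ⊢
  generalize Nat.totient (5 ^ c) = C at g5 ⊢
  generalize Nat.totient n3 = E at g0 ⊢
  have k1 := Nat.mul_le_mul (Nat.mul_le_mul g2 g3) (Nat.mul_le_mul g5 g0)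
  have k2 : 16777216 * (2 ^ a * (3 ^ b * (5 ^ c * n3))) ^ 7 ≤
      21870000000 * (A * (B * (C * E))) ^ 8 := by
    calc 16777216 * (2 ^ a * (3 ^ b * (5 ^ c * n3))) ^ 7
        = 1 * (2 ^ a) ^ 7 * (256 * (3 ^ b) ^ 7) * (65536 * (5 ^ c) ^ 7 * n3 ^ 7) := by ring
      _ ≤ 128 * A ^ 8 * (2187 * B ^ 8) * (78125 * C ^ 8 * E ^ 8) := k1
      _ = 21870000000 * (A * (B * (C * E))) ^ 8 := by ring
  generalize (2 ^ a * (3 ^ b * (5 ^ c * n3))) ^ 7 = U at k2 ⊢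
  generalize (A * (B * (C * E))) ^ 8 = W at k2 ⊢
  omega

theorem totient_real (n : ℕ) (hn : 0 < n) :
    (n : ℝ) ^ ((7 : ℝ) / 8) ≤ 5 / 2 * (Nat.totient n : ℝ) := by
  have h := totient_bound8 n hn
  have h' : (256 : ℝ) * (n : ℝ) ^ 7 ≤ 390625 * (Nat.totient n : ℝ) ^ 8 := by exact_mod_cast h
  have hn0 : (0 : ℝ) ≤ n := Nat.cast_nonneg n
  have hp : ((n : ℝ) ^ ((7 : ℝ) / 8)) ^ 8 = (n : ℝ) ^ 7 := by
    rw [← Real.rpow_natCast, ← Real.rpow_mul hn0, ← Real.rpow_natCast]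
    norm_num
  have h8 : ((n : ℝ) ^ ((7 : ℝ) / 8)) ^ 8 ≤ (5 / 2 * (Nat.totient n : ℝ)) ^ 8 := by
    rw [hp, mul_pow]
    nlinarith
  exact le_of_pow_le_pow_left₀ (by norm_num) (by positivity) h8

end Pool.Agent.ST5
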