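import Pool.Agent.ST5.N.V2

/-!
ST6B row M3. Sums of nonnegative functions over a subgroup of small index.

PROOF. s = e / gcd e t, g = gcd e t. Reduction π : (ZMod e)ˣ → (ZMod s)ˣ (`ZMod.unitsMap`, surjective) maps H onto H' = H.map π,
the fibres of H → H' have all |H| / |H'| elements (`V2_fib`, `V2_card` in N/V2.lean, as in the proof of `frequency_sum`), and φ(s) ≤ m |H'|
(index of H' ≤ index of H). The term of c only depends on π c: (((t/g) * c.val : ℕ) : ZMod s) = (t/g) * π c, with t/g a unit mod s. So the sum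
is (|H|/|H'|) ∑_{h ∈ H'} f ((t/g) h) ≤ (|H|/|H'|) ∑_{k : (ZMod s)ˣ} f k (f ≥ 0, h ↦ (t/g) h is injective into the units), times φ(s) ≤ m |H'|.
-/

namespace Pool.Agent.ST5

theorem M3_fib {G G' : Type*} [Group G] [Group G'] [Fintype G] [Fintype G'] [DecidableEq G']
    (f : G →* G') (hf : Function.Surjective f) (F : G' → ℝ) :
    ∑ x : G, F (f x) = ((Finset.univ.filter fun g => f g = 1).card : ℝ) * ∑ y : G', F y := by
  classical
  rw [← Finset.sum_fiberwise Finset.univ f (fun x => F (f x)), Finset.mul_sum]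
  refine Finset.sum_congr rfl fun y _ => ?_
  rw [Finset.sum_congr rfl (g := fun _ => F y) fun x hx => by rw [(Finset.mem_filter.1 hx).2],
    Finset.sum_const, nsmul_eq_mul]
  congr 2
  exact MonoidHom.card_fiber_eq_of_mem_range f (hf y) (hf 1)

theorem pos_sum (e : ℕ) [NeZero e] (H : Subgroup (ZMod e)ˣ) [Fintype H] (m : ℕ)
    (hm : Nat.totient e ≤ m * Fintype.card H) (t s : ℕ) (hs : s = e / Nat.gcd e t) [NeZero s]
    (f : ZMod s → ℝ) (hf : ∀ x, 0 ≤ f x) :
    (∑ c : H, f (((t / Nat.gcd e t) * ((((c : (ZMod e)ˣ)) : ZMod e).val) : ℕ) : ZMod s)) *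
        Nat.totient s ≤
      m * Fintype.card H * ∑ k : (ZMod s)ˣ, f (k : ZMod s) := by
  classical
  have he : 0 < e := Nat.pos_of_ne_zero (NeZero.ne e)
  obtain ⟨g, hg⟩ : ∃ g, g = Nat.gcd e t := ⟨_, rfl⟩
  have hg0 : 0 < g := by rw [hg]; exact Nat.gcd_pos_of_pos_left _ he
  have hse' : e = g * s := by
    rw [hs, ← hg]
    exact (Nat.mul_div_cancel' (by rw [hg]; exact Nat.gcd_dvd_left _ _)).symm
  obtain ⟨t', ht'⟩ : g ∣ t := by rw [hg]; exact Nat.gcd_dvd_right _ _
  have hse : s ∣ e := ⟨g, by rw [hse', mul_comm]⟩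
  have hdt : t / Nat.gcd e t = t' := by
    rw [← hg, ht', Nat.mul_div_cancel_left _ hg0]
  have hcop : Nat.Coprime t' s := by
    have h1 := Nat.coprime_div_gcd_div_gcd (m := e) (n := t) (by rw [← hg]; exact hg0)
    rw [← hs, hdt] at h1
    exact h1.symm
  rw [hdt]
  obtain ⟨φ, hφ⟩ : ∃ φ : H →* H.map (ZMod.unitsMap hse), φ = (ZMod.unitsMap hse).subgroupMap H :=
    ⟨_, rfl⟩
  have hφs : Function.Surjective φ := by
    rw [hφ]
    exact MonoidHom.subgroupMap_surjective _ _
  have hφv : ∀ c : H, ((φ c : H.map (ZMod.unitsMap hse)) : (ZMod s)ˣ) =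
      ZMod.unitsMap hse (c : (ZMod e)ˣ) := by
    intro c
    rw [hφ]
    rfl
  have hterm : ∀ c : H, f ((t' * ((((c : (ZMod e)ˣ)) : ZMod e).val) : ℕ) : ZMod s) =
      f (((ZMod.unitOfCoprime t' hcop * (φ c : (ZMod s)ˣ)) : (ZMod s)ˣ) : ZMod s) := by
    intro c
    congr 1
    rw [Units.val_mul, ZMod.coe_unitOfCoprime, hφv, ZMod.unitsMap_val, ZMod.cast_eq_val]
    push_cast
    rfl
  rw [Finset.sum_congr rfl fun c _ => hterm c]
  rw [M3_fib φ hφs (fun y => f
    (((ZMod.unitOfCoprime t' hcop * (y : (ZMod s)ˣ)) : (ZMod s)ˣ) : ZMod s))]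
  have hk := V2_card φ hφs
  have hK := V2_card (ZMod.unitsMap hse) (ZMod.unitsMap_surjective hse)
  rw [ZMod.card_units_eq_totient, ZMod.card_units_eq_totient] at hK
  set k := (Finset.univ.filter fun g => φ g = 1).card with hkdef
  set K' := (Finset.univ.filter fun g => ZMod.unitsMap hse g = 1).card with hKdef
  have hkK : k ≤ K' := by
    apply Finset.card_le_card_of_injOn (fun c : H => (c : (ZMod e)ˣ))
    · intro c hc
      have h1 : φ c = 1 := (Finset.mem_filter.1 hc).2
      have h2 := hφv c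
      rw [h1] at h2
      simp only [Finset.coe_filter, Finset.mem_univ, true_and, Set.mem_ofPred_eq]
      rw [← h2]
      rfl
    · intro a _ b _ h
      exact Subtype.ext h
  have hK0 : 0 < K' := by
    apply Finset.card_pos.2
    exact ⟨1, by simp⟩
  have hmain : Nat.totient s ≤ m * Fintype.card (H.map (ZMod.unitsMap hse)) := by
    have h1 : K' * Nat.totient s ≤ K' * (m * Fintype.card (H.map (ZMod.unitsMap hse))) := by
      calc K' * Nat.totient s = Nat.totient e := hK.symm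
        _ ≤ m * Fintype.card H := hm
        _ = k * (m * Fintype.card (H.map (ZMod.unitsMap hse))) := by rw [hk]; ring
        _ ≤ _ := Nat.mul_le_mul_right _ hkK
    exact Nat.le_of_mul_le_mul_left h1 hK0
  have hmain' : (Nat.totient s : ℝ) ≤ m * Fintype.card (H.map (ZMod.unitsMap hse)) := by
    exact_mod_cast hmain
  have hk' : (Fintype.card H : ℝ) = k * Fintype.card (H.map (ZMod.unitsMap hse)) := by
    exact_mod_cast hk
  have hS0 : 0 ≤ ∑ k : (ZMod s)ˣ, f (k : ZMod s) := Finset.sum_nonneg fun _ _ => hf _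
  have hle : ∑ y : H.map (ZMod.unitsMap hse),
      f (((ZMod.unitOfCoprime t' hcop * (y : (ZMod s)ˣ)) : (ZMod s)ˣ) : ZMod s) ≤
      ∑ k : (ZMod s)ˣ, f (k : ZMod s) := by
    have hinj : Function.Injective (fun y : H.map (ZMod.unitsMap hse) =>
        (ZMod.unitOfCoprime t' hcop * (y : (ZMod s)ˣ) : (ZMod s)ˣ)) := by
      intro a b hab
      exact Subtype.ext (mul_left_cancel hab)
    have h3 := Finset.sum_map (Finset.univ : Finset (H.map (ZMod.unitsMap hse))) ⟨_, hinj⟩
      (fun k : (ZMod s)ˣ => f (k : ZMod s))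
    refine le_trans (le_of_eq h3.symm) ?_
    exact Finset.sum_le_sum_of_subset_of_nonneg (Finset.subset_univ _)
      fun _ _ _ => hf _
  rw [hk']
  calc (k : ℝ) * (∑ y : H.map (ZMod.unitsMap hse),
        f (((ZMod.unitOfCoprime t' hcop * (y : (ZMod s)ˣ)) : (ZMod s)ˣ) : ZMod s)) * Nat.totient s
      ≤ (k : ℝ) * (∑ k : (ZMod s)ˣ, f (k : ZMod s)) *
        (m * Fintype.card (H.map (ZMod.unitsMap hse))) := by
        apply mul_le_mul
        · exact mul_le_mul_of_nonneg_left hle (Nat.cast_nonneg _)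
        · exact hmain'
        · exact Nat.cast_nonneg _
        · exact mul_nonneg (Nat.cast_nonneg _) hS0
    _ = _ := by ring

end Pool.Agent.ST5
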