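import Pool.Agent.ST5.M.MDefs

/-!
ST6B row M4. The Fejér kernel.

PROOF. fejer J φ = (1/J²) ∑_{i,i' < J} cos((i-i') φ) (expand the square of the norm).
`fejer_le_one`: triangle inequality. `fejer_int`: all terms are 1. `fejer_cos`: collect i - i' = ± k.
`fejer_period`: exp (i (φ + 2πk) I) = exp (i φ I).
`fejer_avg_roots`: (1/M) ∑_k cos((i-i') ρ 2πk/M) = [M ∣ (i-i') ρ] = [i = i'] as |(i-i') ρ| ≤ ρ (J-1) < M: total J/J² = 1/J.
`fejer_sum_residues`: J = a s + b with b < s. ∑_{k<s} fejer J (2πk/s) = (s/J²) #{(i,i') : i ≡ i' mod s} = (s/J²) (b (a+1)² + (s-b) a²) = (s/J²)(s a² + 2ab + b); minus the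
 term k = 0 (which is 1): (s² a² + 2sab + sb - J²)/J² = b (s-b)/J² ≤ s/J: if a ≥ 1 then b (s-b) ≤ s²/4 ≤ s J/4; if a = 0 then b = J and it is (s-J)/J.
-/

namespace Pool.Agent.ST5

/-- the double sum of cosines -/
theorem M4_expand (J : ℕ) (φ : ℝ) : fejer J φ =
    (1 / (J : ℝ) ^ 2) * ∑ i ∈ Finset.range J, ∑ i' ∈ Finset.range J,
      Real.cos (((i : ℝ) - i') * φ) := by
  unfold fejer
  congr 1
  have h1 : ∀ i : ℕ, Complex.exp ((i : ℂ) * φ * Complex.I) =
      Complex.exp (((i * φ : ℝ) : ℂ) * Complex.I) := by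
    intro i
    push_cast
    rfl
  simp only [h1]
  rw [← Complex.normSq_eq_norm_sq, Complex.normSq_apply, Complex.re_sum, Complex.im_sum]
  simp only [Complex.exp_ofReal_mul_I_re, Complex.exp_ofReal_mul_I_im]
  rw [Finset.sum_mul_sum, Finset.sum_mul_sum, ← Finset.sum_add_distrib]
  refine Finset.sum_congr rfl fun i _ => ?_
  rw [← Finset.sum_add_distrib]
  refine Finset.sum_congr rfl fun i' _ => ?_
  rw [sub_mul, Real.cos_sub]

theorem fejer_nonneg (J : ℕ) (φ : ℝ) : 0 ≤ fejer J φ := by
  unfold fejer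
  positivity

theorem fejer_le_one (J : ℕ) (φ : ℝ) : fejer J φ ≤ 1 := by
  rw [M4_expand]
  rcases Nat.eq_zero_or_pos J with rfl | hJ
  · simp
  have hJ' : (0 : ℝ) < J := by exact_mod_cast hJ
  have h1 : ∑ i ∈ Finset.range J, ∑ i' ∈ Finset.range J, Real.cos (((i : ℝ) - i') * φ) ≤
      (J : ℝ) ^ 2 := by
    calc ∑ i ∈ Finset.range J, ∑ i' ∈ Finset.range J, Real.cos (((i : ℝ) - i') * φ)
        ≤ ∑ i ∈ Finset.range J, ∑ i' ∈ Finset.range J, (1 : ℝ) :=
          Finset.sum_le_sum fun i _ => Finset.sum_le_sum fun i' _ => Real.cos_le_one _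
      _ = (J : ℝ) ^ 2 := by
          simp only [Finset.sum_const, Finset.card_range, nsmul_eq_mul]
          ring
  rw [one_div, inv_mul_le_iff₀ (by positivity), mul_one]
  exact h1

theorem fejer_int (J : ℕ) (hJ : 0 < J) (k : ℤ) : fejer J (2 * Real.pi * k) = 1 := by
  rw [M4_expand]
  have hJ' : (0 : ℝ) < J := by exact_mod_cast hJ
  have h1 : ∀ i i' : ℕ, Real.cos (((i : ℝ) - i') * (2 * Real.pi * k)) = 1 := by
    intro i i'
    have h2 : ((i : ℝ) - i') * (2 * Real.pi * k) = (((i - i' : ℤ) * k : ℤ) : ℝ) * (2 * Real.pi) := by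
      push_cast
      ring
    rw [h2, Real.cos_int_mul_two_pi]
  simp only [h1, Finset.sum_const, Finset.card_range, nsmul_eq_mul, mul_one]
  field_simp

theorem fejer_period (J : ℕ) (φ : ℝ) (k : ℤ) : fejer J (φ + 2 * Real.pi * k) = fejer J φ := by
  rw [M4_expand, M4_expand]
  congr 1
  refine Finset.sum_congr rfl fun i _ => Finset.sum_congr rfl fun i' _ => ?_
  have h2 : ((i : ℝ) - i') * (φ + 2 * Real.pi * k) =
      ((i : ℝ) - i') * φ + (((i - i' : ℤ) * k : ℤ) : ℝ) * (2 * Real.pi) := by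
    push_cast
    ring
  rw [h2, Real.cos_add_int_mul_two_pi]

theorem M4_double (J : ℕ) (φ : ℝ) :
    ∑ i ∈ Finset.range J, ∑ i' ∈ Finset.range J, Real.cos (((i : ℝ) - i') * φ) =
      J + 2 * ∑ i ∈ Finset.range J, ((J : ℝ) - (i + 1)) * Real.cos ((i + 1) * φ) := by
  induction J with
  | zero => simp
  | succ J ih =>
    have h1 : ∑ i ∈ Finset.range J, Real.cos (((J : ℝ) - i) * φ) =
        ∑ i ∈ Finset.range J, Real.cos (((i : ℝ) + 1) * φ) := by
      rw [← Finset.sum_range_reflect]
      refine Finset.sum_congr rfl fun i hi => ?_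
      have hi' : i < J := Finset.mem_range.1 hi
      have h2 : ((J - 1 - i : ℕ) : ℝ) = (J : ℝ) - 1 - i := by
        rw [Nat.sub_sub, Nat.cast_sub (by omega)]
        push_cast
        ring
      rw [h2]
      congr 1
      ring
    have h3 : ∑ i ∈ Finset.range J, Real.cos (((i : ℝ) - J) * φ) =
        ∑ i ∈ Finset.range J, Real.cos (((J : ℝ) - i) * φ) := by
      refine Finset.sum_congr rfl fun i _ => ?_
      rw [← Real.cos_neg]
      congr 1
      ring
    rw [Finset.sum_range_succ]
    simp only [Finset.sum_range_succ _ J]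
    rw [Finset.sum_add_distrib, ih, h3, h1, sub_self, zero_mul, Real.cos_zero]
    have h4 : ∑ i ∈ Finset.range J, (((J + 1 : ℕ) : ℝ) - (i + 1)) * Real.cos ((i + 1) * φ) =
        ∑ i ∈ Finset.range J, ((J : ℝ) - (i + 1)) * Real.cos ((i + 1) * φ) +
          ∑ i ∈ Finset.range J, Real.cos (((i : ℝ) + 1) * φ) := by
      rw [← Finset.sum_add_distrib]
      refine Finset.sum_congr rfl fun i _ => ?_
      push_cast
      ring
    rw [h4]
    push_cast
    ring

theorem fejer_cos (J : ℕ) (hJ : 0 < J) (φ : ℝ) : fejer J φ =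
    1 / J + (2 / J) * ∑ i ∈ Finset.range (J - 1), (1 - (i + 1) / J) * Real.cos ((i + 1) * φ) := by
  have hJ' : (0 : ℝ) < J := by exact_mod_cast hJ
  rw [M4_expand, M4_double]
  obtain ⟨j, rfl⟩ : ∃ j, J = j + 1 := ⟨J - 1, by omega⟩
  rw [Nat.add_sub_cancel, Finset.sum_range_succ]
  have h1 : (((j + 1 : ℕ) : ℝ) - (j + 1)) = 0 := by push_cast; ring
  rw [h1, zero_mul, add_zero]
  have h2 : ∑ i ∈ Finset.range j, (((j + 1 : ℕ) : ℝ) - (i + 1)) * Real.cos ((i + 1) * φ) =
      ((j + 1 : ℕ) : ℝ) * ∑ i ∈ Finset.range j, (1 - (i + 1) / ((j + 1 : ℕ) : ℝ)) *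
        Real.cos ((i + 1) * φ) := by
    rw [Finset.mul_sum]
    refine Finset.sum_congr rfl fun i _ => ?_
    field_simp
  rw [h2]
  have h3 : ((j + 1 : ℕ) : ℝ) ≠ 0 := hJ'.ne'
  generalize (∑ i ∈ Finset.range j, (1 - ((i : ℝ) + 1) / ((j + 1 : ℕ) : ℝ)) *
        Real.cos (((i : ℝ) + 1) * φ)) = z
  field_simp

/-- sums over the roots of unity -/
theorem M4_roots (M : ℕ) (hM : 0 < M) (n : ℤ) :
    ∑ k ∈ Finset.range M, Real.cos (n * (2 * Real.pi * k / M)) =
      if (M : ℤ) ∣ n then (M : ℝ) else 0 := by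
  have hM' : (M : ℝ) ≠ 0 := by exact_mod_cast hM.ne'
  have hMc : (M : ℂ) ≠ 0 := by exact_mod_cast hM.ne'
  split_ifs with h
  · obtain ⟨c, rfl⟩ := h
    have h1 : ∀ k : ℕ, Real.cos (((M * c : ℤ) : ℝ) * (2 * Real.pi * k / M)) = 1 := by
      intro k
      have h2 : ((M * c : ℤ) : ℝ) * (2 * Real.pi * k / M) =
          ((c * k : ℤ) : ℝ) * (2 * Real.pi) := by
        push_cast
        field_simp
      rw [h2, Real.cos_int_mul_two_pi]
    simp only [h1, Finset.sum_const, Finset.card_range, nsmul_eq_mul, mul_one]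
  · set w : ℂ := Complex.exp (n * (2 * Real.pi / M) * Complex.I) with hw
    have hw1 : w ≠ 1 := by
      intro h1
      rw [hw, Complex.exp_eq_one_iff] at h1
      obtain ⟨m, hm⟩ := h1
      apply h
      refine ⟨m, ?_⟩
      have hpi : (2 * (Real.pi : ℂ) * Complex.I) ≠ 0 := by
        simp [Real.pi_ne_zero, Complex.I_ne_zero]
      have h2 : (n : ℂ) = M * m := by
        have h3 : (n : ℂ) * (2 * Real.pi * Complex.I) = (M * m) * (2 * Real.pi * Complex.I) := by
          have h4 : (n : ℂ) * (2 * Real.pi * Complex.I) =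
              M * (n * (2 * Real.pi / M) * Complex.I) := by
            field_simp
          rw [h4, hm]
          ring
        exact mul_right_cancel₀ hpi h3
      exact_mod_cast h2
    have hwM : w ^ M = 1 := by
      rw [hw, ← Complex.exp_nat_mul, Complex.exp_eq_one_iff]
      refine ⟨n, ?_⟩
      field_simp
    have hsum : ∑ k ∈ Finset.range M, w ^ k = 0 := by
      have h2 := geom_sum_mul w M
      rw [hwM, sub_self] at h2
      rcases mul_eq_zero.1 h2 with h3 | h3
      · exact h3
      · exact absurd (sub_eq_zero.1 h3) hw1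
    have h5 := congrArg Complex.re hsum
    rw [Complex.re_sum, Complex.zero_re] at h5
    rw [← h5]
    refine Finset.sum_congr rfl fun k _ => ?_
    have h6 : w ^ k = Complex.exp (((n * (2 * Real.pi * k / M) : ℝ) : ℂ) * Complex.I) := by
      rw [hw, ← Complex.exp_nat_mul]
      congr 1
      push_cast
      ring
    rw [h6, Complex.exp_ofReal_mul_I_re]

theorem fejer_avg_roots (J : ℕ) (hJ : 0 < J) (ρ M : ℕ) (hρ : 1 ≤ ρ) (hM : ρ * J < M) :
    (1 / (M : ℝ)) * ∑ k ∈ Finset.range M, fejer J ((ρ : ℝ) * (2 * Real.pi * k / M)) = 1 / J := by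
  have hM0 : 0 < M := by omega
  have hM' : (M : ℝ) ≠ 0 := by exact_mod_cast hM0.ne'
  have hJ' : (J : ℝ) ≠ 0 := by exact_mod_cast hJ.ne'
  simp only [M4_expand]
  rw [← Finset.mul_sum, Finset.sum_comm]
  have h1 : ∀ i ∈ Finset.range J, ∑ k ∈ Finset.range M, ∑ i' ∈ Finset.range J,
      Real.cos (((i : ℝ) - i') * (ρ * (2 * Real.pi * k / M))) = M := by
    intro i hi
    rw [Finset.sum_comm]
    have h2 : ∀ i' ∈ Finset.range J, ∑ k ∈ Finset.range M,
        Real.cos (((i : ℝ) - i') * (ρ * (2 * Real.pi * k / M))) = if i' = i then (M : ℝ) else 0 := by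
      intro i' hi'
      have h3 := M4_roots M hM0 (((i : ℤ) - i') * ρ)
      have h4 : ∑ k ∈ Finset.range M, Real.cos (((i : ℝ) - i') * (ρ * (2 * Real.pi * k / M))) =
          ∑ k ∈ Finset.range M,
            Real.cos (((((i : ℤ) - i') * ρ : ℤ) : ℝ) * (2 * Real.pi * k / M)) := by
        refine Finset.sum_congr rfl fun k _ => ?_
        push_cast
        congr 1
        ring
      rw [h4, h3]
      have hi1 : i < J := Finset.mem_range.1 hi
      have hi2 : i' < J := Finset.mem_range.1 hi'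
      refine if_congr ?_ rfl rfl
      constructor
      · intro hdvd
        by_contra hne
        have h5 : (((i : ℤ) - i') * ρ) = 0 := by
          refine Int.eq_zero_of_abs_lt_dvd hdvd ?_
          rw [abs_mul]
          have h6 : |(i : ℤ) - i'| ≤ J := by
            rw [abs_le]
            constructor <;> omega
          have h7 : |(ρ : ℤ)| = ρ := abs_of_nonneg (by positivity)
          rw [h7]
          calc |(i : ℤ) - i'| * ρ ≤ J * ρ := by
                apply mul_le_mul_of_nonneg_right h6 (by positivity)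
            _ < M := by
                have : J * ρ < M := by rw [mul_comm]; exact hM
                exact_mod_cast this
        rcases mul_eq_zero.1 h5 with h6 | h6
        · apply hne
          omega
        · have : ρ = 0 := by exact_mod_cast h6
          omega
      · rintro rfl
        simp
    rw [Finset.sum_congr rfl h2, Finset.sum_ite_eq' (Finset.range J) i (fun _ => (M : ℝ)),
      if_pos hi]
  rw [Finset.sum_congr rfl h1, Finset.sum_const, Finset.card_range, nsmul_eq_mul]
  field_simp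

theorem fejer_sum_residues (J : ℕ) (hJ : 0 < J) (s : ℕ) (hs : 2 ≤ s) :
    ∑ k ∈ (Finset.range s).erase 0, fejer J (2 * Real.pi * k / s) ≤ s / J := by
  have hs0 : 0 < s := by omega
  have hs' : (0 : ℝ) < s := by exact_mod_cast hs0
  have hJ' : (0 : ℝ) < J := by exact_mod_cast hJ
  have h0 : fejer J (2 * Real.pi * ((0 : ℕ) : ℝ) / s) = 1 := by
    have := fejer_int J hJ 0
    simpa using this
  have h1 : ∑ k ∈ (Finset.range s).erase 0, fejer J (2 * Real.pi * k / s) =
      ∑ k ∈ Finset.range s, fejer J (2 * Real.pi * k / s) - 1 := by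
    rw [← Finset.add_sum_erase (Finset.range s) (fun k : ℕ => fejer J (2 * Real.pi * k / s))
      (Finset.mem_range.2 hs0), h0]
    ring
  rw [h1]
  have h2 : ∑ k ∈ Finset.range s, fejer J (2 * Real.pi * k / s) ≤
      (1 / (J : ℝ) ^ 2) * (J * (s * ((J : ℝ) / s + 1))) := by
    simp only [M4_expand]
    rw [← Finset.mul_sum, Finset.sum_comm]
    refine mul_le_mul_of_nonneg_left ?_ (by positivity)
    calc ∑ i ∈ Finset.range J, ∑ k ∈ Finset.range s, ∑ i' ∈ Finset.range J,
          Real.cos (((i : ℝ) - i') * (2 * Real.pi * k / s))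
        ≤ ∑ i ∈ Finset.range J, (s * ((J : ℝ) / s + 1)) := by
          refine Finset.sum_le_sum fun i _ => ?_
          rw [Finset.sum_comm]
          have h3 : ∀ i' ∈ Finset.range J, ∑ k ∈ Finset.range s,
              Real.cos (((i : ℝ) - i') * (2 * Real.pi * k / s)) =
              if i' ≡ i [MOD s] then (s : ℝ) else 0 := by
            intro i' _
            have h3 := M4_roots s hs0 ((i : ℤ) - i')
            have h4 : ∑ k ∈ Finset.range s, Real.cos (((i : ℝ) - i') * (2 * Real.pi * k / s)) =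
                ∑ k ∈ Finset.range s,
                  Real.cos ((((i : ℤ) - i' : ℤ) : ℝ) * (2 * Real.pi * k / s)) := by
              refine Finset.sum_congr rfl fun k _ => ?_
              push_cast
              rfl
            rw [h4, h3]
            refine if_congr ?_ rfl rfl
            rw [Nat.modEq_iff_dvd]
          rw [Finset.sum_congr rfl h3, ← Finset.sum_filter, Finset.sum_const, nsmul_eq_mul,
            mul_comm]
          refine mul_le_mul_of_nonneg_left ?_ hs'.le
          have h5 := Nat.count_modEq_card J hs0 i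
          rw [Nat.count_eq_card_filter_range] at h5
          rw [h5]
          push_cast
          have h6 : ((J / s : ℕ) : ℝ) ≤ (J : ℝ) / s := Nat.cast_div_le
          split_ifs <;> simp <;> linarith
      _ = J * (s * ((J : ℝ) / s + 1)) := by
          rw [Finset.sum_const, Finset.card_range, nsmul_eq_mul]
  have h3 : (1 / (J : ℝ) ^ 2) * (J * (s * ((J : ℝ) / s + 1))) = 1 + s / J := by
    field_simp
  linarith

end Pool.Agent.ST5
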