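import Pool.Agent.ST5.M.M1
import Pool.Agent.ST5.M.M3
import Pool.Agent.ST5.M.M4

/-!
ST6B row M5. Averages of the Fejér kernel over a subgroup of small index.

NOTATION. s = e / gcd e t ≥ 2, h = |H|; the angle of c is 2π t c/e = 2π ((t/g) c)/s with g = gcd e t.
PROOF.
Case s < J^4: `pos_sum` with f x = fejer J (2π x.val/s) (`fejer_period`: the angle 2π t c.val/e differs from 2π (((t/g) c.val mod s))/s by a multiple of 2π):
 sum * φ(s) ≤ m h ∑_{k : units} f k ≤ m h ∑_{k ∈ range s \ 0} fejer J (2πk/s) ≤ m h s/J (units are nonzero residues as s ≥ 2; `fejer_sum_residues`,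
 `fejer_nonneg`). `totient_real`: s = s^(7/8) s^(1/8) ≤ (5/2) φ(s) s^(1/8), s^(1/8) ≤ J^(1/2): sum ≤ m h (5/2) √J / J = m h (5/2)/√J.
Case s ≥ J^4: `fejer_cos`: sum ≤ h/J + (2/J) ∑_{1 ≤ i < J} |∑_c cos(i · angle c)|, and by `frequency_sum` (N/V2.lean) with the frequency t i:
 |∑_c …| φ(s_i) ≤ h m √(s_i), s_i = e / gcd(e, t i) ≥ s/i > J³ (s_i * i ≥ s: e / gcd(e, t i) = s / gcd(s, i)), and √(s_i)/φ(s_i) ≤ (5/2) s_i^(-3/8) ≤ (5/2) J^(-9/8). So
 sum ≤ h/J + 2 h m (5/2) J^(-9/8) ≤ h m (5/2)/√J, since 1/J ≤ (1/2)(5/2)/√J (J ≥ 16) and 2 J^(-9/8) ≤ (1/2) J^(-1/2) (J^(5/8) ≥ 4 for J ≥ 16).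
-/

namespace Pool.Agent.ST5

theorem m5_real {s J : ℕ} (hs : 0 < s) (h : J ^ 8 ≤ s ^ 3) :
    √(s : ℝ) * J ≤ 5 / 2 * (Nat.totient s : ℝ) := by
  refine le_trans ?_ (totient_real s hs)
  have hs0 : (0 : ℝ) < s := Nat.cast_pos.2 hs
  have h1 : (J : ℝ) ≤ (s : ℝ) ^ ((3 : ℝ) / 8) := by
    have h2 : (J : ℝ) ^ (8 : ℕ) ≤ ((s : ℝ) ^ ((3 : ℝ) / 8)) ^ (8 : ℕ) := by
      rw [← Real.rpow_natCast ((s : ℝ) ^ ((3 : ℝ) / 8)), ← Real.rpow_mul hs0.le]
      norm_num
      exact_mod_cast h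
    exact le_of_pow_le_pow_left₀ (by norm_num) (Real.rpow_nonneg hs0.le _) h2
  calc √(s : ℝ) * J ≤ √(s : ℝ) * (s : ℝ) ^ ((3 : ℝ) / 8) :=
        mul_le_mul_of_nonneg_left h1 (Real.sqrt_nonneg _)
    _ = (s : ℝ) ^ ((7 : ℝ) / 8) := by
        rw [Real.sqrt_eq_rpow, ← Real.rpow_add hs0]
        norm_num

theorem m5_small (e : ℕ) [NeZero e] (H : Subgroup (ZMod e)ˣ) [Fintype H] (m : ℕ)
    (hm : Nat.totient e ≤ m * Fintype.card H) (t : ℕ) (hs : 2 ≤ e / Nat.gcd e t) (J : ℕ)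
    (hJ : 0 < J) (hsJ : e / Nat.gcd e t < J ^ 4) :
    ∑ c : H, fejer J (2 * Real.pi * (t * ((((c : (ZMod e)ˣ)) : ZMod e).val : ℕ)) / e) ≤
      Fintype.card H * (m * (5 / 2) / √(J : ℝ)) := by
  classical
  have he : 0 < e := Nat.pos_of_ne_zero (NeZero.ne e)
  obtain ⟨s, hsdef⟩ : ∃ s, s = e / Nat.gcd e t := ⟨_, rfl⟩
  rw [← hsdef] at hs hsJ
  have hs0 : NeZero s := ⟨by omega⟩
  have hg0 : 0 < Nat.gcd e t := Nat.gcd_pos_of_pos_left _ he
  have hes : Nat.gcd e t * s = e := by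
    rw [hsdef]
    exact Nat.mul_div_cancel' (Nat.gcd_dvd_left e t)
  have hts : Nat.gcd e t * (t / Nat.gcd e t) = t := Nat.mul_div_cancel' (Nat.gcd_dvd_right e t)
  have hang : ∀ c : ℕ, fejer J (2 * Real.pi * (t * (c : ℕ)) / e) =
      fejer J (2 * Real.pi * ((((t / Nat.gcd e t) * c : ℕ) : ZMod s).val : ℕ) / s) := by
    intro c
    rw [ZMod.val_natCast]
    have h1 := Nat.div_add_mod ((t / Nat.gcd e t) * c) s
    have h2 : 2 * Real.pi * ((t : ℝ) * (c : ℕ)) / e =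
        2 * Real.pi * ((((t / Nat.gcd e t) * c % s : ℕ) : ℝ)) / s +
          2 * Real.pi * ((((t / Nat.gcd e t) * c / s : ℕ) : ℤ) : ℝ) := by
      have h3 : (t : ℝ) = (Nat.gcd e t : ℝ) * ((t / Nat.gcd e t : ℕ) : ℝ) := by
        exact_mod_cast hts.symm
      have h4 : (e : ℝ) = (Nat.gcd e t : ℝ) * (s : ℝ) := by exact_mod_cast hes.symm
      have h5 : ((t / Nat.gcd e t : ℕ) : ℝ) * (c : ℝ) =
          (s : ℝ) * (((t / Nat.gcd e t) * c / s : ℕ) : ℝ) +
            (((t / Nat.gcd e t) * c % s : ℕ) : ℝ) := by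
        exact_mod_cast h1.symm
      have hgr : (Nat.gcd e t : ℝ) ≠ 0 := Nat.cast_ne_zero.2 hg0.ne'
      have hsr : (s : ℝ) ≠ 0 := Nat.cast_ne_zero.2 (by omega)
      have h6 : 2 * Real.pi * ((Nat.gcd e t : ℝ) * ((t / Nat.gcd e t : ℕ) : ℝ) * (c : ℝ)) /
          ((Nat.gcd e t : ℝ) * (s : ℝ)) =
          2 * Real.pi * (((t / Nat.gcd e t : ℕ) : ℝ) * (c : ℝ)) / s := by
        field_simp
      rw [h3, h4, h6, h5, Int.cast_natCast]
      field_simp
      ring
    rw [h2, fejer_period]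
  have hpos := pos_sum e H m hm t s hsdef
    (fun x : ZMod s => fejer J (2 * Real.pi * ((x.val : ℕ) : ℝ) / s)) (fun x => fejer_nonneg _ _)
  beta_reduce at hpos
  have hunits : ∑ k : (ZMod s)ˣ, fejer J (2 * Real.pi * (((k : ZMod s).val : ℕ) : ℝ) / s) ≤ s / J := by
    refine le_trans ?_ (fejer_sum_residues J hJ s hs)
    have hinj : Function.Injective fun k : (ZMod s)ˣ => (k : ZMod s).val := by
      intro k k' h
      exact Units.ext (ZMod.val_injective s h)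
    have h1 : ∑ k : (ZMod s)ˣ, fejer J (2 * Real.pi * (((k : ZMod s).val : ℕ) : ℝ) / s) =
        ∑ x ∈ Finset.univ.image (fun k : (ZMod s)ˣ => (k : ZMod s).val),
          fejer J (2 * Real.pi * (x : ℝ) / s) := by
      rw [Finset.sum_image fun a _ b _ h => hinj h]
    rw [h1]
    refine Finset.sum_le_sum_of_subset_of_nonneg ?_ fun x _ _ => fejer_nonneg _ _
    intro x hx
    obtain ⟨k, _, rfl⟩ := Finset.mem_image.1 hx
    refine Finset.mem_erase.2 ⟨?_, Finset.mem_range.2 (ZMod.val_lt _)⟩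
    intro h0
    rw [ZMod.val_eq_zero] at h0
    have hnt : Nontrivial (ZMod s) := ZMod.nontrivial_iff.2 (by omega)
    exact k.ne_zero h0
  have hS : (∑ c : H, fejer J (2 * Real.pi * (t * ((((c : (ZMod e)ˣ)) : ZMod e).val : ℕ)) / e)) *
      Nat.totient s ≤ m * Fintype.card H * (s / J) := by
    rw [Finset.sum_congr rfl fun c _ => hang _]
    exact hpos.trans (mul_le_mul_of_nonneg_left hunits (by positivity))
  have hJ0 : (0 : ℝ) < J := Nat.cast_pos.2 hJ
  have hsp : 0 < s := by omega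
  have htot : (0 : ℝ) < Nat.totient s := Nat.cast_pos.2 (Nat.totient_pos.2 hsp)
  have hsr : (0 : ℝ) < s := Nat.cast_pos.2 hsp
  have h8 : (s : ℝ) ≤ 5 / 2 * (Nat.totient s : ℝ) * √(J : ℝ) := by
    have h1 : (s : ℝ) ^ ((1 : ℝ) / 8) ≤ √(J : ℝ) := by
      have h2 : (s : ℝ) ≤ (J : ℝ) ^ (4 : ℕ) := by exact_mod_cast hsJ.le
      calc (s : ℝ) ^ ((1 : ℝ) / 8) ≤ ((J : ℝ) ^ (4 : ℕ)) ^ ((1 : ℝ) / 8) :=
            Real.rpow_le_rpow hsr.le h2 (by norm_num)
        _ = √(J : ℝ) := by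
            rw [← Real.rpow_natCast, ← Real.rpow_mul hJ0.le, Real.sqrt_eq_rpow]
            norm_num
    calc (s : ℝ) = (s : ℝ) ^ ((7 : ℝ) / 8) * (s : ℝ) ^ ((1 : ℝ) / 8) := by
          rw [← Real.rpow_add hsr]
          norm_num
      _ ≤ 5 / 2 * (Nat.totient s : ℝ) * √(J : ℝ) :=
          mul_le_mul (totient_real s hsp) h1 (Real.rpow_nonneg hsr.le _) (by positivity)
  have hw0 : 0 < √(J : ℝ) := Real.sqrt_pos.2 hJ0
  have hww : √(J : ℝ) * √(J : ℝ) = J := Real.mul_self_sqrt hJ0.le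
  refine le_of_mul_le_mul_right (hS.trans ?_) htot
  calc (m : ℝ) * Fintype.card H * (s / J) ≤
      m * Fintype.card H * ((5 / 2 * (Nat.totient s : ℝ) * √(J : ℝ)) / J) :=
        mul_le_mul_of_nonneg_left (div_le_div_of_nonneg_right h8 hJ0.le) (by positivity)
    _ = Fintype.card H * (m * (5 / 2) / √(J : ℝ)) * (Nat.totient s : ℝ) := by
        generalize √(J : ℝ) = w at hw0 hww ⊢
        rw [← hww]
        field_simp

theorem m5_freq (e : ℕ) [NeZero e] (H : Subgroup (ZMod e)ˣ) [Fintype H] (m : ℕ)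
    (hm : Nat.totient e ≤ m * Fintype.card H) (t : ℕ) (J : ℕ)
    (hJ : 0 < J) (hsJ : J ^ 4 ≤ e / Nat.gcd e t) (i : ℕ) (hi : i + 1 ≤ J) :
    |∑ c : H, Real.cos (((i : ℝ) + 1) *
      (2 * Real.pi * (t * ((((c : (ZMod e)ˣ)) : ZMod e).val : ℕ)) / e))| ≤
      5 / 2 * (Fintype.card H * m) / J := by
  classical
  have he : 0 < e := Nat.pos_of_ne_zero (NeZero.ne e)
  have hJ0 : (0 : ℝ) < J := Nat.cast_pos.2 hJ
  have hfs := frequency_sum e H m hm (t * (i + 1))
  have hcos : |∑ c : H, Real.cos (((i : ℝ) + 1) *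
      (2 * Real.pi * (t * ((((c : (ZMod e)ˣ)) : ZMod e).val : ℕ)) / e))| ≤
      ‖∑ c : H, Complex.exp (2 * Real.pi * Complex.I *
        (((t * (i + 1) : ℕ) : ℂ) * ((((c : (ZMod e)ˣ)) : ZMod e).val : ℕ)) / e)‖ := by
    have h1 : ∑ c : H, Real.cos (((i : ℝ) + 1) *
        (2 * Real.pi * (t * ((((c : (ZMod e)ˣ)) : ZMod e).val : ℕ)) / e)) =
        (∑ c : H, Complex.exp (2 * Real.pi * Complex.I *
          (((t * (i + 1) : ℕ) : ℂ) * ((((c : (ZMod e)ˣ)) : ZMod e).val : ℕ)) / e)).re := by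
      rw [Complex.re_sum]
      refine Finset.sum_congr rfl fun c _ => ?_
      rw [← Complex.exp_ofReal_mul_I_re]
      congr 2
      push_cast
      ring
    rw [h1]
    exact Complex.abs_re_le_norm _
  refine hcos.trans ?_
  generalize ‖∑ c : H, Complex.exp (2 * Real.pi * Complex.I *
        (((t * (i + 1) : ℕ) : ℂ) * ((((c : (ZMod e)ˣ)) : ZMod e).val : ℕ)) / e)‖ = N at hfs ⊢
  have hg0 : 0 < Nat.gcd e t := Nat.gcd_pos_of_pos_left _ he
  have hes : Nat.gcd e t * (e / Nat.gcd e t) = e := Nat.mul_div_cancel' (Nat.gcd_dvd_left e t)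
  have hes' : Nat.gcd e (t * (i + 1)) * (e / Nat.gcd e (t * (i + 1))) = e :=
    Nat.mul_div_cancel' (Nat.gcd_dvd_left e _)
  have hgle : Nat.gcd e (t * (i + 1)) ≤ Nat.gcd e t * (i + 1) := by
    refine Nat.le_of_dvd (by positivity) ?_
    exact (Nat.gcd_mul_right_dvd_mul_gcd e t (i + 1)).trans
      (Nat.mul_dvd_mul_left _ (Nat.gcd_dvd_right e (i + 1)))
  generalize e / Nat.gcd e (t * (i + 1)) = s' at hfs hes'
  generalize e / Nat.gcd e t = s at hsJ hes
  have hss : s ≤ (i + 1) * s' := by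
    have h1 : Nat.gcd e t * s ≤ Nat.gcd e t * ((i + 1) * s') := by
      calc Nat.gcd e t * s = e := hes
        _ = Nat.gcd e (t * (i + 1)) * s' := hes'.symm
        _ ≤ Nat.gcd e t * (i + 1) * s' := Nat.mul_le_mul_right _ hgle
        _ = Nat.gcd e t * ((i + 1) * s') := mul_assoc _ _ _
    exact Nat.le_of_mul_le_mul_left h1 hg0
  have hs'J : J ^ 3 ≤ s' := by
    have h1 : J * J ^ 3 ≤ J * s' := by
      calc J * J ^ 3 = J ^ 4 := by ring
        _ ≤ s := hsJ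
        _ ≤ (i + 1) * s' := hss
        _ ≤ J * s' := Nat.mul_le_mul_right _ hi
    exact Nat.le_of_mul_le_mul_left h1 hJ
  have hs'0 : 0 < s' := lt_of_lt_of_le (by positivity) hs'J
  have hpow : J ^ 8 ≤ s' ^ 3 := by
    calc J ^ 8 ≤ J ^ 9 := Nat.pow_le_pow_right hJ (by norm_num)
      _ = (J ^ 3) ^ 3 := by ring
      _ ≤ s' ^ 3 := Nat.pow_le_pow_left hs'J 3
  have hreal := m5_real hs'0 hpow
  have htot : (0 : ℝ) < Nat.totient s' := Nat.cast_pos.2 (Nat.totient_pos.2 hs'0)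
  rw [le_div_iff₀ hJ0]
  refine le_of_mul_le_mul_right ?_ htot
  calc N * J * (Nat.totient s' : ℝ) = (N * (Nat.totient s' : ℝ)) * J := by ring
    _ ≤ (Fintype.card H * (m * √(s' : ℝ))) * J := mul_le_mul_of_nonneg_right hfs hJ0.le
    _ = Fintype.card H * m * (√(s' : ℝ) * J) := by ring
    _ ≤ Fintype.card H * m * (5 / 2 * (Nat.totient s' : ℝ)) :=
        mul_le_mul_of_nonneg_left hreal (by positivity)
    _ = 5 / 2 * (Fintype.card H * m) * (Nat.totient s' : ℝ) := by ring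

theorem fejer_avg (e : ℕ) [NeZero e] (H : Subgroup (ZMod e)ˣ) [Fintype H] (m : ℕ) (hm1 : 1 ≤ m)
    (hm : Nat.totient e ≤ m * Fintype.card H) (t : ℕ) (hs : 2 ≤ e / Nat.gcd e t) (J : ℕ)
    (hJ : 16 ≤ J) :
    ∑ c : H, fejer J (2 * Real.pi * (t * ((((c : (ZMod e)ˣ)) : ZMod e).val : ℕ)) / e) ≤
      Fintype.card H * (m * (5 / 2) / Real.sqrt J) := by
  classical
  have he : 0 < e := Nat.pos_of_ne_zero (NeZero.ne e)
  have hH : (1 : ℝ) ≤ Fintype.card H := by
    have h1 : 0 < Fintype.card H := Fintype.card_pos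
    exact_mod_cast h1
  have hm0 : (1 : ℝ) ≤ m := by exact_mod_cast hm1
  have hJ0 : (0 : ℝ) < J := Nat.cast_pos.2 (by omega)
  have hw : (4 : ℝ) ≤ √(J : ℝ) := by
    rw [show (4 : ℝ) = √16 by rw [show (16 : ℝ) = 4 ^ 2 by norm_num]; exact (Real.sqrt_sq (by norm_num)).symm]
    exact Real.sqrt_le_sqrt (by exact_mod_cast hJ)
  have hww : √(J : ℝ) * √(J : ℝ) = J := Real.mul_self_sqrt hJ0.le
  by_cases hsJ : e / Nat.gcd e t < J ^ 4
  · exact m5_small e H m hm t hs J (by omega) hsJ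
  · have hsJ' : J ^ 4 ≤ e / Nat.gcd e t := not_lt.1 hsJ
    have hN : ∀ i ∈ Finset.range (J - 1),
        |∑ c : H, Real.cos (((i : ℝ) + 1) *
          (2 * Real.pi * (t * ((((c : (ZMod e)ˣ)) : ZMod e).val : ℕ)) / e))| ≤
          5 / 2 * (Fintype.card H * m) / J := by
      intro i hi
      exact m5_freq e H m hm t J (by omega) hsJ' i (by have := Finset.mem_range.1 hi; omega)
    have hsum : ∑ c : H, fejer J (2 * Real.pi * (t * ((((c : (ZMod e)ˣ)) : ZMod e).val : ℕ)) / e) ≤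
        Fintype.card H * (1 / J) + 2 / J * (J * (5 / 2 * (Fintype.card H * m) / J)) := by
      rw [Finset.sum_congr rfl fun c _ => fejer_cos J (by omega) _, Finset.sum_add_distrib,
        Finset.sum_const, Finset.card_univ, nsmul_eq_mul, ← Finset.mul_sum, Finset.sum_comm]
      refine add_le_add le_rfl (mul_le_mul_of_nonneg_left ?_ (by positivity))
      calc ∑ i ∈ Finset.range (J - 1), ∑ c : H, (1 - ((i : ℝ) + 1) / J) * Real.cos (((i : ℝ) + 1) *
            (2 * Real.pi * (t * ((((c : (ZMod e)ˣ)) : ZMod e).val : ℕ)) / e))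
          ≤ ∑ _i ∈ Finset.range (J - 1), 5 / 2 * (Fintype.card H * m) / (J : ℝ) := by
            refine Finset.sum_le_sum fun i hi => ?_
            rw [← Finset.mul_sum]
            have hiJ : ((i : ℝ) + 1) / J ≤ 1 := by
              rw [div_le_one hJ0]
              have h1 : i + 1 ≤ J := by have := Finset.mem_range.1 hi; omega
              exact_mod_cast h1
            have hi0 : 0 ≤ ((i : ℝ) + 1) / J := by positivity
            calc (1 - ((i : ℝ) + 1) / J) * ∑ c : H, Real.cos (((i : ℝ) + 1) *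
                  (2 * Real.pi * (t * ((((c : (ZMod e)ˣ)) : ZMod e).val : ℕ)) / e))
                ≤ (1 - ((i : ℝ) + 1) / J) * |∑ c : H, Real.cos (((i : ℝ) + 1) *
                  (2 * Real.pi * (t * ((((c : (ZMod e)ˣ)) : ZMod e).val : ℕ)) / e))| :=
                  mul_le_mul_of_nonneg_left (le_abs_self _) (by linarith)
              _ ≤ 1 * |∑ c : H, Real.cos (((i : ℝ) + 1) *
                  (2 * Real.pi * (t * ((((c : (ZMod e)ˣ)) : ZMod e).val : ℕ)) / e))| :=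
                  mul_le_mul_of_nonneg_right (by linarith) (abs_nonneg _)
              _ ≤ _ := by
                  rw [one_mul]
                  exact hN i hi
        _ = ((J - 1 : ℕ) : ℝ) * (5 / 2 * (Fintype.card H * m) / (J : ℝ)) := by
            rw [Finset.sum_const, Finset.card_range, nsmul_eq_mul]
        _ ≤ J * (5 / 2 * (Fintype.card H * m) / (J : ℝ)) := by
            refine mul_le_mul_of_nonneg_right ?_ (by positivity)
            exact_mod_cast Nat.sub_le J 1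
    have hfin : Fintype.card H * (1 / (J : ℝ)) + 2 / J * (J * (5 / 2 * (Fintype.card H * m) / J)) ≤
        Fintype.card H * (m * (5 / 2) / √(J : ℝ)) := by
      have h1 : Fintype.card H * (1 / (J : ℝ)) + 2 / J * (J * (5 / 2 * (Fintype.card H * m) / J)) =
          Fintype.card H * ((1 + 5 * m) / J) := by
        field_simp
      rw [h1]
      refine mul_le_mul_of_nonneg_left ?_ (by linarith)
      rw [div_le_div_iff₀ hJ0 (by linarith)]
      have h2 : (1 + 5 * (m : ℝ)) ≤ 6 * m := by linarith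
      calc (1 + 5 * (m : ℝ)) * √(J : ℝ) ≤ (6 * m) * √(J : ℝ) :=
            mul_le_mul_of_nonneg_right h2 (by linarith)
        _ ≤ m * (5 / 2) * (4 * √(J : ℝ)) := by nlinarith
        _ ≤ m * (5 / 2) * (√(J : ℝ) * √(J : ℝ)) :=
            mul_le_mul_of_nonneg_left (mul_le_mul_of_nonneg_right hw (by linarith)) (by positivity)
        _ = m * (5 / 2) * J := by rw [hww]
    exact hsum.trans hfin

end Pool.Agent.ST5
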