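import Pool.Agent.ST5.M.M5

/-!
ST6B row M6. The test function has nonnegative averages.

PROOF. R = X^3, J = X^8, α = 1/(2B), h = |H|, θ_c = 2π t c/e, r = e / gcd e t.
Case r ≤ R: for ρ = r ∈ Icc 1 R: r θ_c ∈ 2πℤ (r t/e is an integer), `fejer_int`: the product contains the factor 0: each term is α ≥ 0.
Case r > R: Π_c := ∏_ρ (1 - fejer J (ρ θ_c)) ∈ [0,1] and 1 - Π_c ≤ ∑_ρ fejer J (ρ θ_c) (`Finset.prod_one_sub_…`, induction; fejer ∈ [0,1]). cos θ_c Π_c
 = cos θ_c - cos θ_c (1 - Π_c) ≥ cos θ_c - ∑_ρ fejer J (ρ θ_c). Sum over c: ≥ h α - |∑_c cos θ_c| - ∑_ρ ∑_c fejer J (2π (ρ t) c/e).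
 `frequency_sum`: |∑_c cos θ_c| ≤ h m √r/φ(r) ≤ h m (5/2) r^(-3/8) (`totient_real`), r^(3/8) ≥ X^(9/8) ≥ X: ≤ h m (5/2)/X ≤ h/(4B) as X ≥ 10 m B.
 `fejer_avg` with the frequency ρ t: e / gcd(e, ρ t) ≥ 2 because r = e / gcd e t does not divide ρ ≤ R < r: each ≤ h m (5/2)/X^4, sum over ρ ≤ R: ≤ h m (5/2)/X ≤ h/(4B).
 (J = X^8 ≥ 16: X ≥ 40.)
-/

namespace Pool.Agent.ST5

theorem M6_prod {ι : Type*} (s : Finset ι) (f : ι → ℝ) (h0 : ∀ i ∈ s, 0 ≤ f i)
    (h1 : ∀ i ∈ s, f i ≤ 1) :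
    0 ≤ ∏ i ∈ s, (1 - f i) ∧ ∏ i ∈ s, (1 - f i) ≤ 1 ∧ 1 - ∏ i ∈ s, (1 - f i) ≤ ∑ i ∈ s, f i := by
  classical
  induction s using Finset.induction_on with
  | empty => simp
  | insert a s ha ih =>
    obtain ⟨h2, h3, h4⟩ := ih (fun i hi => h0 i (Finset.mem_insert_of_mem hi))
      (fun i hi => h1 i (Finset.mem_insert_of_mem hi))
    have h5 := h0 a (Finset.mem_insert_self a s)
    have h6 := h1 a (Finset.mem_insert_self a s)
    rw [Finset.prod_insert ha, Finset.sum_insert ha]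
    refine ⟨mul_nonneg (by linarith) h2, ?_, ?_⟩
    · nlinarith
    · nlinarith

theorem test_nonneg (m : ℕ) (hm1 : 1 ≤ m) (B : ℝ) (hB : 4 < B) (X : ℕ) (hX : 10 * m * B ≤ X)
    (e : ℕ) [NeZero e] (H : Subgroup (ZMod e)ˣ) [Fintype H]
    (hm : Nat.totient e ≤ m * Fintype.card H) (t : ℕ) :
    0 ≤ ∑ c : H, testG (1 / (2 * B)) (X ^ 3) (X ^ 8)
      (2 * Real.pi * (t * ((((c : (ZMod e)ˣ)) : ZMod e).val : ℕ)) / e) := by
  have he : 0 < e := Nat.pos_of_ne_zero (NeZero.ne e)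
  have he' : (0 : ℝ) < e := by exact_mod_cast he
  have hm' : (1 : ℝ) ≤ m := by exact_mod_cast hm1
  have hX40 : (40 : ℝ) ≤ X := by nlinarith
  have hX40' : 40 ≤ X := by exact_mod_cast hX40
  have hXpos : (0 : ℝ) < X := by linarith
  set g := Nat.gcd e t with hg
  have hg0 : 0 < g := Nat.gcd_pos_of_pos_left _ he
  set r := e / g with hr
  have hge : g ∣ e := Nat.gcd_dvd_left e t
  have hgt : g ∣ t := Nat.gcd_dvd_right e t
  have her : e = r * g := (Nat.div_mul_cancel hge).symm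
  have htt : t = (t / g) * g := (Nat.div_mul_cancel hgt).symm
  have hr0 : 0 < r := Nat.div_pos (Nat.le_of_dvd he hge) hg0
  have hcop : Nat.Coprime r (t / g) := Nat.coprime_div_gcd_div_gcd hg0
  have hJ0 : 0 < X ^ 8 := by positivity
  have hg' : (0 : ℝ) < g := by exact_mod_cast hg0
  have hr' : (0 : ℝ) < r := by exact_mod_cast hr0
  rcases le_or_gt r (X ^ 3) with hrR | hrR
  · -- the product vanishes
    refine Finset.sum_nonneg fun c _ => ?_
    set v : ℕ := (((c : (ZMod e)ˣ)) : ZMod e).val with hv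
    have hz : ∏ ρ ∈ Finset.Icc 1 (X ^ 3), (1 - fejer (X ^ 8)
        ((ρ : ℝ) * (2 * Real.pi * (t * (v : ℕ)) / e))) = 0 := by
      refine Finset.prod_eq_zero (Finset.mem_Icc.2 ⟨hr0, hrR⟩) ?_
      have h1 : (r : ℝ) * (2 * Real.pi * (t * (v : ℕ)) / e) =
          2 * Real.pi * (((t / g : ℕ) * v : ℤ) : ℝ) := by
        have h2 : (e : ℝ) = r * g := by exact_mod_cast her
        have h3 : (t : ℝ) = ((t / g : ℕ) : ℝ) * g := by exact_mod_cast htt
        have h4 : ((((t / g : ℕ) : ℤ) * (v : ℤ) : ℤ) : ℝ) = ((t / g : ℕ) : ℝ) * v := by push_cast; rfl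
        rw [h4]
        generalize ((t / g : ℕ) : ℝ) = q at h3
        rw [h2, h3]
        field_simp
      rw [h1, fejer_int _ hJ0, sub_self]
    have h5 : testG (1 / (2 * B)) (X ^ 3) (X ^ 8) (2 * Real.pi * (t * (v : ℕ)) / e) =
        1 / (2 * B) := by
      rw [testG, hz, mul_zero, add_zero]
    rw [h5]
    positivity
  · -- the main case
    set h : ℝ := (Fintype.card H : ℝ) with hh
    have hhpos : 0 < h := by
      rw [hh]
      exact_mod_cast Fintype.card_pos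
    -- the cosine sum
    have hN : ‖∑ c : H, Complex.exp (2 * Real.pi * Complex.I *
        (t * ((((c : (ZMod e)ˣ)) : ZMod e).val : ℕ)) / e)‖ ≤ h * (m * (5 / 2) / X) := by
      set N := ‖∑ c : H, Complex.exp (2 * Real.pi * Complex.I *
        (t * ((((c : (ZMod e)ˣ)) : ZMod e).val : ℕ)) / e)‖ with hN
      have hN0 : 0 ≤ N := norm_nonneg _
      have h1 : N * Nat.totient r ≤ h * (m * Real.sqrt (r : ℝ)) := frequency_sum e H m hm t
      have h2 := totient_real r hr0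
      have h3 : N * (r : ℝ) ^ ((7 : ℝ) / 8) ≤ 5 / 2 * (h * (m * Real.sqrt r)) := by
        calc N * (r : ℝ) ^ ((7 : ℝ) / 8) ≤ N * (5 / 2 * (Nat.totient r : ℝ)) :=
              mul_le_mul_of_nonneg_left h2 hN0
          _ = 5 / 2 * (N * Nat.totient r) := by ring
          _ ≤ _ := by linarith
      have h4 : (r : ℝ) ^ ((7 : ℝ) / 8) = Real.sqrt r * (r : ℝ) ^ ((3 : ℝ) / 8) := by
        rw [Real.sqrt_eq_rpow, ← Real.rpow_add hr']
        norm_num
      have h5 : (X : ℝ) ≤ (r : ℝ) ^ ((3 : ℝ) / 8) := by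
        have h6 : ((X : ℝ) ^ 3) ≤ r := by exact_mod_cast hrR.le
        have h7 : ((X : ℝ) ^ 3) ^ ((3 : ℝ) / 8) ≤ (r : ℝ) ^ ((3 : ℝ) / 8) :=
          Real.rpow_le_rpow (by positivity) h6 (by norm_num)
        refine le_trans ?_ h7
        rw [← Real.rpow_natCast, ← Real.rpow_mul hXpos.le]
        nth_rw 1 [← Real.rpow_one (X : ℝ)]
        exact Real.rpow_le_rpow_of_exponent_le (by linarith) (by norm_num)
      have h6 : 0 < Real.sqrt r := Real.sqrt_pos.2 hr'
      have h7 : N * X ≤ 5 / 2 * (h * m) := by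
        have h8 : Real.sqrt r * (N * X) ≤ Real.sqrt r * (5 / 2 * (h * m)) := by
          calc Real.sqrt r * (N * X) ≤ Real.sqrt r * (N * (r : ℝ) ^ ((3 : ℝ) / 8)) := by gcongr
            _ = N * (r : ℝ) ^ ((7 : ℝ) / 8) := by rw [h4]; ring
            _ ≤ 5 / 2 * (h * (m * Real.sqrt r)) := h3
            _ = _ := by ring
        exact le_of_mul_le_mul_left h8 h6
      calc N = N * X / X := by field_simp
        _ ≤ 5 / 2 * (h * m) / X := by gcongr
        _ = _ := by ring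
    have hcos : -(h * (m * (5 / 2) / X)) ≤
        ∑ c : H, Real.cos (2 * Real.pi * (t * ((((c : (ZMod e)ˣ)) : ZMod e).val : ℕ)) / e) := by
      have h1 : ∑ c : H, Real.cos (2 * Real.pi * (t * ((((c : (ZMod e)ˣ)) : ZMod e).val : ℕ)) / e) =
          (∑ c : H, Complex.exp (2 * Real.pi * Complex.I *
            (t * ((((c : (ZMod e)ˣ)) : ZMod e).val : ℕ)) / e)).re := by
        rw [Complex.re_sum]
        refine Finset.sum_congr rfl fun c _ => ?_
        have h2 : (2 * Real.pi * Complex.I *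
            (t * ((((c : (ZMod e)ˣ)) : ZMod e).val : ℕ)) / e : ℂ) =
            ((2 * Real.pi * (t * ((((c : (ZMod e)ˣ)) : ZMod e).val : ℕ)) / e : ℝ) : ℂ) *
              Complex.I := by
          push_cast
          ring
        rw [h2, Complex.exp_ofReal_mul_I_re]
      rw [h1]
      have h2 := Complex.abs_re_le_norm (∑ c : H, Complex.exp (2 * Real.pi * Complex.I *
            (t * ((((c : (ZMod e)ˣ)) : ZMod e).val : ℕ)) / e))
      have h3 := (abs_le.1 (h2.trans hN)).1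
      exact h3
    -- the Fejér sums
    have hfej : ∑ c : H, ∑ ρ ∈ Finset.Icc 1 (X ^ 3), fejer (X ^ 8)
        ((ρ : ℝ) * (2 * Real.pi * (t * ((((c : (ZMod e)ˣ)) : ZMod e).val : ℕ)) / e)) ≤
        h * (m * (5 / 2) / X) := by
      rw [Finset.sum_comm]
      have h1 : ∀ ρ ∈ Finset.Icc 1 (X ^ 3), ∑ c : H, fejer (X ^ 8)
          ((ρ : ℝ) * (2 * Real.pi * (t * ((((c : (ZMod e)ˣ)) : ZMod e).val : ℕ)) / e)) ≤
          h * (m * (5 / 2) / (X : ℝ) ^ 4) := by
        intro ρ hρ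
        obtain ⟨hρ1, hρ2⟩ := Finset.mem_Icc.1 hρ
        have h2 : 2 ≤ e / Nat.gcd e (ρ * t) := by
          by_contra hlt
          have h3 : Nat.gcd e (ρ * t) ∣ e := Nat.gcd_dvd_left _ _
          have h4 : 0 < e / Nat.gcd e (ρ * t) :=
            Nat.div_pos (Nat.le_of_dvd he h3) (Nat.gcd_pos_of_pos_left _ he)
          have h5 : e / Nat.gcd e (ρ * t) = 1 := by omega
          have h6 : e = Nat.gcd e (ρ * t) := by
            have := Nat.div_mul_cancel h3
            rw [h5, one_mul] at this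
            exact this.symm
          have h7 : e ∣ ρ * t := by
            rw [h6]
            exact Nat.gcd_dvd_right _ _
          rw [htt, ← mul_assoc] at h7
          have h8 : r * g ∣ ρ * (t / g) * g := by rw [← her]; exact h7
          have h9 : r ∣ ρ * (t / g) := Nat.dvd_of_mul_dvd_mul_right hg0 h8
          have h10 : r ∣ ρ := hcop.dvd_of_dvd_mul_right h9
          have h11 := Nat.le_of_dvd (by omega) h10
          omega
        have h3 := fejer_avg e H m hm1 hm (ρ * t) h2 (X ^ 8) (by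
          calc 16 ≤ 40 ^ 8 := by norm_num
            _ ≤ X ^ 8 := Nat.pow_le_pow_left hX40' 8)
        have h4 : Real.sqrt ((X ^ 8 : ℕ) : ℝ) = (X : ℝ) ^ 4 := by
          rw [show ((X ^ 8 : ℕ) : ℝ) = ((X : ℝ) ^ 4) ^ 2 by push_cast; ring]
          exact Real.sqrt_sq (by positivity)
        rw [h4] at h3
        refine le_trans (le_of_eq ?_) h3
        refine Finset.sum_congr rfl fun c _ => ?_
        congr 1
        push_cast
        ring
      calc _ ≤ ∑ ρ ∈ Finset.Icc 1 (X ^ 3), h * (m * (5 / 2) / (X : ℝ) ^ 4) :=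
            Finset.sum_le_sum h1
        _ = h * (m * (5 / 2) / X) := by
            rw [Finset.sum_const, Nat.card_Icc, nsmul_eq_mul, Nat.add_sub_cancel]
            push_cast
            field_simp
    -- pointwise bound
    have hpt : ∀ c : H, 1 / (2 * B) +
        Real.cos (2 * Real.pi * (t * ((((c : (ZMod e)ˣ)) : ZMod e).val : ℕ)) / e) -
        ∑ ρ ∈ Finset.Icc 1 (X ^ 3), fejer (X ^ 8)
          ((ρ : ℝ) * (2 * Real.pi * (t * ((((c : (ZMod e)ˣ)) : ZMod e).val : ℕ)) / e)) ≤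
        testG (1 / (2 * B)) (X ^ 3) (X ^ 8)
          (2 * Real.pi * (t * ((((c : (ZMod e)ˣ)) : ZMod e).val : ℕ)) / e) := by
      intro c
      set φ := 2 * Real.pi * (t * ((((c : (ZMod e)ˣ)) : ZMod e).val : ℕ)) / (e : ℝ) with hφ
      obtain ⟨h1, h2, h3⟩ := M6_prod (Finset.Icc 1 (X ^ 3))
        (fun ρ => fejer (X ^ 8) ((ρ : ℝ) * φ)) (fun i _ => fejer_nonneg _ _)
        (fun i _ => fejer_le_one _ _)
      rw [testG]
      have h4 := Real.cos_le_one φ
      have h5 : Real.cos φ * (1 - ∏ ρ ∈ Finset.Icc 1 (X ^ 3), (1 - fejer (X ^ 8) ((ρ : ℝ) * φ)))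
          ≤ 1 - ∏ ρ ∈ Finset.Icc 1 (X ^ 3), (1 - fejer (X ^ 8) ((ρ : ℝ) * φ)) := by
        have h6 : 0 ≤ 1 - ∏ ρ ∈ Finset.Icc 1 (X ^ 3), (1 - fejer (X ^ 8) ((ρ : ℝ) * φ)) := by
          linarith
        nlinarith
      nlinarith
    have hsum := Finset.sum_le_sum (s := Finset.univ) fun c _ => hpt c
    refine le_trans ?_ hsum
    rw [Finset.sum_sub_distrib, Finset.sum_add_distrib, Finset.sum_const, Finset.card_univ,
      nsmul_eq_mul]
    have hb : m * (5 / 2) / (X : ℝ) ≤ 1 / (4 * B) := by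
      rw [div_le_div_iff₀ hXpos (by linarith)]
      nlinarith
    have hb' : h * (m * (5 / 2) / X) ≤ h * (1 / (4 * B)) :=
      mul_le_mul_of_nonneg_left hb hhpos.le
    have hB' : (0 : ℝ) < B := by linarith
    have hid : h * (1 / (2 * B)) = h * (1 / (4 * B)) + h * (1 / (4 * B)) := by
      field_simp
      norm_num
    linarith

end Pool.Agent.ST5
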