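import Pool.Agent.ST5.M.M4

/-!
ST6B row M7. The integral of the test function against a measure with the moments B, 1, 2, ..., 2.

PROOF. `TP_mul`: cos a cos b = (cos(a+b) + cos(a-b))/2. `TP_fejer`: `fejer_cos`. `TP_testG`: 1 - fejer J (ρ ·) ∈ TP (ρ (J-1)), the product over ρ ≤ R is in
 TP (∑ ρ (J-1)) ⊆ TP ((J-1) R²), times cos φ and the constant α: TP ((J-1) R² + 1) ⊆ TP (J R²) (R ≥ 1).
`moment_identity`: linear in P, for P = cos(j ·), j ≤ D, M > D + 1 (M ≥ 3): the averages over k < M of cos(2πjk/M) are [j = 0] for 0 ≤ j < M, 2 cos cos = cos(j+1) + cos(j-1):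
 right side = 2 + (B-2)[j=0] - [j=1] = left side.
`moment_G`: P = testG, D = J R², M = D + 2 (> ρ J for ρ ≤ R): testG φ = α + cos φ - cos φ K(φ), K = 1 - ∏ ∈ [0,1], K(φ) ≤ ∑_ρ fejer J (ρ φ), K(0) = 1 (R ≥ 1, J ≥ 1). Right side:
 2 α + avg_k (α + cos φ_k - cos φ_k K_k)(B - 2 - 2 cos φ_k) = 2α + α (B-2) - 1 - avg cos φ_k K_k (B - 2 - 2 cos φ_k), and |cos φ (B-2-2cos φ)| ≤ B (B ≥ 4), so
 ≤ α B - 1 + B avg K_k ≤ α B - 1 + B ∑_ρ avg fejer J (ρ φ_k) = α B - 1 + B R/J (`fejer_avg_roots`).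
-/

namespace Pool.Agent.ST5

theorem TP_mono {D D' : ℕ} (h : D ≤ D') : TP D ≤ TP D' := by
  unfold TP
  refine Submodule.span_mono ?_
  rintro f ⟨j, hj, rfl⟩
  exact ⟨j, hj.trans h, rfl⟩

theorem m7_cos_mem {j D : ℕ} (h : j ≤ D) : (fun φ : ℝ => Real.cos ((j : ℝ) * φ)) ∈ TP D :=
  Submodule.subset_span ⟨j, h, rfl⟩

theorem m7_one (D : ℕ) : (fun _ => (1 : ℝ)) ∈ TP D := by
  have h : (fun _ : ℝ => (1 : ℝ)) = fun φ : ℝ => Real.cos (((0 : ℕ) : ℝ) * φ) := by
    funext φ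
    rw [Nat.cast_zero, zero_mul, Real.cos_zero]
  rw [h]
  exact m7_cos_mem (Nat.zero_le _)

theorem m7_cosmul {D D' a b : ℕ} (ha : a ≤ D) (hb : b ≤ D') :
    (fun φ : ℝ => Real.cos ((a : ℝ) * φ) * Real.cos ((b : ℝ) * φ)) ∈ TP (D + D') := by
  have hgen : ∀ c e : ℕ, e ≤ c → c + e ≤ D + D' →
      (fun φ : ℝ => Real.cos ((c : ℝ) * φ) * Real.cos ((e : ℝ) * φ)) ∈ TP (D + D') := by
    intro c e hec hce
    have h : (fun φ : ℝ => Real.cos ((c : ℝ) * φ) * Real.cos ((e : ℝ) * φ)) =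
        (1 / 2 : ℝ) • (fun φ : ℝ => Real.cos (((c + e : ℕ) : ℝ) * φ)) +
          (1 / 2 : ℝ) • fun φ : ℝ => Real.cos (((c - e : ℕ) : ℝ) * φ) := by
      funext φ
      rw [Pi.add_apply, Pi.smul_apply, Pi.smul_apply, Nat.cast_sub hec, Nat.cast_add, add_mul,
        sub_mul, Real.cos_add, Real.cos_sub, smul_eq_mul, smul_eq_mul]
      ring
    rw [h]
    exact Submodule.add_mem _ (Submodule.smul_mem _ _ (m7_cos_mem hce))
      (Submodule.smul_mem _ _ (m7_cos_mem (by omega)))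
  rcases le_total b a with h | h
  · exact hgen a b h (by omega)
  · have h2 := hgen b a h (by omega)
    have h3 : (fun φ : ℝ => Real.cos ((a : ℝ) * φ) * Real.cos ((b : ℝ) * φ)) =
        fun φ : ℝ => Real.cos ((b : ℝ) * φ) * Real.cos ((a : ℝ) * φ) := by
      funext φ
      rw [mul_comm]
    rw [h3]
    exact h2

theorem m7_cos0 {M a : ℕ} (ha : 0 < a) (haM : a < M) :
    ∑ k ∈ Finset.range M, Real.cos ((a : ℝ) * (2 * Real.pi * k / M)) = 0 := by
  have hM : M ≠ 0 := by omega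
  have hζ := Complex.isPrimitiveRoot_exp M hM
  set ζ : ℂ := Complex.exp (2 * Real.pi * Complex.I / M) with hζdef
  have h1 : ζ ^ a ≠ 1 := by
    intro h
    have h2 := (hζ.pow_eq_one_iff_dvd a).1 h
    exact absurd (Nat.le_of_dvd ha h2) (not_le.2 haM)
  have h2 : ∑ k ∈ Finset.range M, (ζ ^ a) ^ k = 0 := by
    have h3 := geom_sum_mul (ζ ^ a) M
    have h4 : (ζ ^ a) ^ M = 1 := by
      rw [← pow_mul, mul_comm, pow_mul, hζ.pow_eq_one, one_pow]
    rw [h4, sub_self] at h3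
    rcases mul_eq_zero.1 h3 with h5 | h5
    · exact h5
    · exact absurd (sub_eq_zero.1 h5) h1
  have h3 : ∀ k ∈ Finset.range M, Real.cos ((a : ℝ) * (2 * Real.pi * k / M)) =
      ((ζ ^ a) ^ k).re := by
    intro k _
    rw [← pow_mul, hζdef, ← Complex.exp_nat_mul]
    have h4 : ((a * k : ℕ) : ℂ) * (2 * Real.pi * Complex.I / M) =
        (((a : ℝ) * (2 * Real.pi * k / M) : ℝ) : ℂ) * Complex.I := by
      push_cast
      ring
    rw [h4, Complex.exp_ofReal_mul_I_re]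
  rw [Finset.sum_congr rfl h3, ← Complex.re_sum, h2, Complex.zero_re]

theorem m7_prod (s : Finset ℕ) (x : ℕ → ℝ) (h0 : ∀ i ∈ s, 0 ≤ x i) (h1 : ∀ i ∈ s, x i ≤ 1) :
    0 ≤ ∏ i ∈ s, (1 - x i) ∧ ∏ i ∈ s, (1 - x i) ≤ 1 ∧ 1 - ∏ i ∈ s, (1 - x i) ≤ ∑ i ∈ s, x i := by
  classical
  induction s using Finset.induction_on with
  | empty => simp
  | insert a s ha ih =>
    obtain ⟨i1, i2, i3⟩ := ih (fun i hi => h0 i (Finset.mem_insert_of_mem hi))
      (fun i hi => h1 i (Finset.mem_insert_of_mem hi))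
    have a0 := h0 a (Finset.mem_insert_self a s)
    have a1 := h1 a (Finset.mem_insert_self a s)
    rw [Finset.prod_insert ha, Finset.sum_insert ha]
    refine ⟨mul_nonneg (by linarith) i1, ?_, ?_⟩
    · nlinarith
    · nlinarith

theorem m7_point {B : ℝ} (hB : 4 ≤ B) (α : ℝ) (R J : ℕ) (θ : ℝ) :
    testG α R J θ * (B - 2 - 2 * Real.cos θ) ≤
      (α * (B - 2) - 1) + (B - 2 - 2 * α) * Real.cos (((1 : ℕ) : ℝ) * θ) -
        Real.cos (((2 : ℕ) : ℝ) * θ) + B * ∑ ρ ∈ Finset.Icc 1 R, fejer J ((ρ : ℝ) * θ) := by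
  obtain ⟨i1, i2, i3⟩ := m7_prod (Finset.Icc 1 R) (fun ρ => fejer J ((ρ : ℝ) * θ))
    (fun ρ _ => fejer_nonneg _ _) (fun ρ _ => fejer_le_one _ _)
  unfold testG
  rw [Nat.cast_one, one_mul, Nat.cast_ofNat, Real.cos_two_mul]
  generalize ∏ ρ ∈ Finset.Icc 1 R, (1 - fejer J ((ρ : ℝ) * θ)) = Q at i1 i2 i3 ⊢
  generalize ∑ ρ ∈ Finset.Icc 1 R, fejer J ((ρ : ℝ) * θ) = Sg at i3 ⊢
  have hc1 := Real.cos_le_one θ
  have hc2 := Real.neg_one_le_cos θ
  generalize Real.cos θ = c at hc1 hc2 ⊢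
  have hK : 0 ≤ 1 - Q := by linarith
  have hpos : 0 ≤ B - 2 - 2 * c := by linarith
  have h1 : -(c * (B - 2 - 2 * c)) ≤ B := by
    have h2 : -(c * (B - 2 - 2 * c)) ≤ 1 * (B - 2 - 2 * c) := by nlinarith
    linarith
  have h2 : -(c * (B - 2 - 2 * c)) * (1 - Q) ≤ B * Sg := by
    calc -(c * (B - 2 - 2 * c)) * (1 - Q) ≤ B * (1 - Q) := mul_le_mul_of_nonneg_right h1 hK
      _ ≤ B * Sg := mul_le_mul_of_nonneg_left i3 (by linarith)
  nlinarith

theorem TP_mul {D D' : ℕ} {f g : ℝ → ℝ} (hf : f ∈ TP D) (hg : g ∈ TP D') :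
    (fun φ => f φ * g φ) ∈ TP (D + D') := by
  have key : ∀ a ≤ D, ∀ g ∈ TP D', (fun φ => Real.cos ((a : ℝ) * φ) * g φ) ∈ TP (D + D') := by
    intro a ha g hg
    refine Submodule.span_induction
      (p := fun g _ => (fun φ => Real.cos ((a : ℝ) * φ) * g φ) ∈ TP (D + D')) ?_ ?_ ?_ ?_ hg
    · rintro g ⟨b, hb, rfl⟩
      exact m7_cosmul ha hb
    · have h : (fun φ : ℝ => Real.cos ((a : ℝ) * φ) * (0 : ℝ → ℝ) φ) = 0 := by
        funext φ
        simp
      rw [h]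
      exact Submodule.zero_mem _
    · intro x y _ _ hx hy
      have h : (fun φ : ℝ => Real.cos ((a : ℝ) * φ) * (x + y) φ) =
          (fun φ => Real.cos ((a : ℝ) * φ) * x φ) + fun φ => Real.cos ((a : ℝ) * φ) * y φ := by
        funext φ
        rw [Pi.add_apply, Pi.add_apply, mul_add]
      rw [h]
      exact Submodule.add_mem _ hx hy
    · intro c x _ hx
      have h : (fun φ : ℝ => Real.cos ((a : ℝ) * φ) * (c • x) φ) =
          c • fun φ => Real.cos ((a : ℝ) * φ) * x φ := by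
        funext φ
        rw [Pi.smul_apply, Pi.smul_apply, smul_eq_mul, smul_eq_mul]
        ring
      rw [h]
      exact Submodule.smul_mem _ _ hx
  refine Submodule.span_induction
    (p := fun f _ => (fun φ => f φ * g φ) ∈ TP (D + D')) ?_ ?_ ?_ ?_ hf
  · rintro f ⟨a, ha, rfl⟩
    exact key a ha g hg
  · have h : (fun φ : ℝ => (0 : ℝ → ℝ) φ * g φ) = 0 := by
      funext φ
      simp
    rw [h]
    exact Submodule.zero_mem _
  · intro x y _ _ hx hy
    have h : (fun φ : ℝ => (x + y) φ * g φ) = (fun φ => x φ * g φ) + fun φ => y φ * g φ := by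
      funext φ
      rw [Pi.add_apply, Pi.add_apply, add_mul]
    rw [h]
    exact Submodule.add_mem _ hx hy
  · intro c x _ hx
    have h : (fun φ : ℝ => (c • x) φ * g φ) = c • fun φ => x φ * g φ := by
      funext φ
      rw [Pi.smul_apply, Pi.smul_apply, smul_eq_mul, smul_eq_mul]
      ring
    rw [h]
    exact Submodule.smul_mem _ _ hx

theorem TP_fejer (J : ℕ) (hJ : 0 < J) (ρ : ℕ) :
    (fun φ => fejer J ((ρ : ℝ) * φ)) ∈ TP (ρ * (J - 1)) := by
  have h : (fun φ => fejer J ((ρ : ℝ) * φ)) = (1 / (J : ℝ)) • (fun _ => (1 : ℝ)) +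
      (2 / (J : ℝ)) • ∑ i ∈ Finset.range (J - 1), (1 - ((i : ℝ) + 1) / J) •
        (fun φ : ℝ => Real.cos ((((i + 1) * ρ : ℕ) : ℝ) * φ)) := by
    funext φ
    rw [fejer_cos J hJ]
    simp only [Pi.add_apply, Pi.smul_apply, Finset.sum_apply, smul_eq_mul, mul_one]
    congr 2
    refine Finset.sum_congr rfl fun i _ => ?_
    push_cast
    rw [mul_assoc]
  rw [h]
  refine Submodule.add_mem _ (Submodule.smul_mem _ _ (m7_one _))
    (Submodule.smul_mem _ _ (Submodule.sum_mem _ fun i hi => Submodule.smul_mem _ _ ?_))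
  refine m7_cos_mem ?_
  have h1 : i + 1 ≤ J - 1 := Finset.mem_range.1 hi
  calc (i + 1) * ρ ≤ (J - 1) * ρ := Nat.mul_le_mul_right _ h1
    _ = ρ * (J - 1) := mul_comm _ _

theorem TP_testG (α : ℝ) (R J : ℕ) (hR : 1 ≤ R) (hJ : 0 < J) : testG α R J ∈ TP (J * R ^ 2) := by
  have hprod : ∀ R : ℕ, (fun φ : ℝ => ∏ ρ ∈ Finset.Icc 1 R, (1 - fejer J ((ρ : ℝ) * φ))) ∈
      TP ((J - 1) * R ^ 2) := by
    intro R
    induction R with
    | zero =>
      have h : (fun φ : ℝ => ∏ ρ ∈ Finset.Icc 1 (0 : ℕ), (1 - fejer J ((ρ : ℝ) * φ))) = fun _ => 1 := by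
        funext φ
        rw [Finset.Icc_eq_empty (by norm_num), Finset.prod_empty]
      rw [h]
      exact m7_one _
    | succ R ih =>
      have h : (fun φ : ℝ => ∏ ρ ∈ Finset.Icc 1 (R + 1), (1 - fejer J ((ρ : ℝ) * φ))) =
          fun φ => (fun φ : ℝ => ∏ ρ ∈ Finset.Icc 1 R, (1 - fejer J ((ρ : ℝ) * φ))) φ *
            ((fun _ : ℝ => (1 : ℝ)) - fun φ : ℝ => fejer J (((R + 1 : ℕ) : ℝ) * φ)) φ := by
        funext φ
        rw [Finset.prod_Icc_succ_top (by omega)]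
        rfl
      rw [h]
      have h2 : ((fun _ : ℝ => (1 : ℝ)) - fun φ : ℝ => fejer J (((R + 1 : ℕ) : ℝ) * φ)) ∈
          TP ((R + 1) * (J - 1)) :=
        Submodule.sub_mem _ (m7_one _) (TP_fejer J hJ (R + 1))
      refine TP_mono ?_ (TP_mul ih h2)
      have h3 : R ^ 2 + (R + 1) ≤ (R + 1) ^ 2 := by nlinarith
      calc (J - 1) * R ^ 2 + (R + 1) * (J - 1) = (J - 1) * (R ^ 2 + (R + 1)) := by ring
        _ ≤ (J - 1) * (R + 1) ^ 2 := Nat.mul_le_mul_left _ h3
  have h : testG α R J = α • (fun _ => (1 : ℝ)) + fun φ => (fun φ : ℝ => Real.cos (((1 : ℕ) : ℝ) * φ)) φ *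
      (fun φ : ℝ => ∏ ρ ∈ Finset.Icc 1 R, (1 - fejer J ((ρ : ℝ) * φ))) φ := by
    funext φ
    unfold testG
    simp only [Pi.add_apply, Pi.smul_apply, smul_eq_mul, mul_one, Nat.cast_one, one_mul]
  rw [h]
  refine Submodule.add_mem _ (Submodule.smul_mem _ _ (m7_one _)) ?_
  refine TP_mono ?_ (TP_mul (m7_cos_mem (j := 1) (D := 1) le_rfl) (hprod R))
  have h1 : 1 ≤ R ^ 2 := Nat.one_le_pow _ _ hR
  obtain ⟨J', rfl⟩ : ∃ J', J = J' + 1 := ⟨J - 1, by omega⟩
  rw [Nat.add_sub_cancel]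
  nlinarith

theorem moment_identity {ι : Type*} (s : Finset ι) (η φ : ι → ℝ) (B : ℝ) (D : ℕ)
    (h0 : ∑ i ∈ s, η i = B) (h1 : ∑ i ∈ s, η i * Real.cos (φ i) = 1)
    (hj : ∀ j : ℕ, 2 ≤ j → j ≤ D → ∑ i ∈ s, η i * Real.cos ((j : ℝ) * φ i) = 2)
    (P : ℝ → ℝ) (hP : P ∈ TP D) (M : ℕ) (hM : D + 1 < M) (hM3 : 3 ≤ M) :
    ∑ i ∈ s, η i * P (φ i) = 2 * P 0 + (1 / (M : ℝ)) * ∑ k ∈ Finset.range M,
      P (2 * Real.pi * k / M) * (B - 2 - 2 * Real.cos (2 * Real.pi * k / M)) := by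
  have hM0 : (M : ℝ) ≠ 0 := Nat.cast_ne_zero.2 (by omega)
  refine Submodule.span_induction
    (p := fun P _ => ∑ i ∈ s, η i * P (φ i) = 2 * P 0 + (1 / (M : ℝ)) * ∑ k ∈ Finset.range M,
      P (2 * Real.pi * k / M) * (B - 2 - 2 * Real.cos (2 * Real.pi * k / M))) ?_ ?_ ?_ ?_ hP
  · rintro P ⟨j, hjD, rfl⟩
    beta_reduce
    rw [mul_zero, Real.cos_zero, mul_one]
    rcases Nat.lt_or_ge j 2 with hj2 | hj2
    · interval_cases j
      · have e1 : ∑ k ∈ Finset.range M, Real.cos (((0 : ℕ) : ℝ) * (2 * Real.pi * k / M)) *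
            (B - 2 - 2 * Real.cos (2 * Real.pi * k / M)) = M * (B - 2) := by
          have e2 : ∀ k ∈ Finset.range M, Real.cos (((0 : ℕ) : ℝ) * (2 * Real.pi * k / M)) *
            (B - 2 - 2 * Real.cos (2 * Real.pi * k / M)) =
              (B - 2) - 2 * Real.cos (((1 : ℕ) : ℝ) * (2 * Real.pi * k / M)) := by
            intro k _
            rw [Nat.cast_zero, zero_mul, Real.cos_zero, one_mul, Nat.cast_one, one_mul]
          rw [Finset.sum_congr rfl e2, Finset.sum_sub_distrib, Finset.sum_const, Finset.card_range,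
            nsmul_eq_mul, ← Finset.mul_sum, m7_cos0 (by omega) (by omega)]
          ring
        rw [e1]
        have e3 : ∑ i ∈ s, η i * Real.cos (((0 : ℕ) : ℝ) * φ i) = B := by
          rw [← h0]
          refine Finset.sum_congr rfl fun i _ => ?_
          rw [Nat.cast_zero, zero_mul, Real.cos_zero, mul_one]
        rw [e3]
        field_simp
        ring
      · have e1 : ∑ k ∈ Finset.range M, Real.cos (((1 : ℕ) : ℝ) * (2 * Real.pi * k / M)) *
            (B - 2 - 2 * Real.cos (2 * Real.pi * k / M)) = -M := by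
          have e2 : ∀ k ∈ Finset.range M, Real.cos (((1 : ℕ) : ℝ) * (2 * Real.pi * k / M)) *
            (B - 2 - 2 * Real.cos (2 * Real.pi * k / M)) =
              (B - 2) * Real.cos (((1 : ℕ) : ℝ) * (2 * Real.pi * k / M)) -
                Real.cos (((2 : ℕ) : ℝ) * (2 * Real.pi * k / M)) - 1 := by
            intro k _
            rw [Nat.cast_one, one_mul, Nat.cast_ofNat, Real.cos_two_mul]
            ring
          rw [Finset.sum_congr rfl e2, Finset.sum_sub_distrib, Finset.sum_sub_distrib,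
            Finset.sum_const, Finset.card_range, nsmul_eq_mul, ← Finset.mul_sum,
            m7_cos0 (by omega) (by omega), m7_cos0 (by omega) (by omega)]
          ring
        rw [e1]
        have e3 : ∑ i ∈ s, η i * Real.cos (((1 : ℕ) : ℝ) * φ i) = 1 := by
          rw [← h1]
          refine Finset.sum_congr rfl fun i _ => ?_
          rw [Nat.cast_one, one_mul]
        rw [e3]
        field_simp
        ring
    · have e1 : ∑ k ∈ Finset.range M, Real.cos ((j : ℝ) * (2 * Real.pi * k / M)) *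
          (B - 2 - 2 * Real.cos (2 * Real.pi * k / M)) = 0 := by
        have e2 : ∀ k ∈ Finset.range M, Real.cos ((j : ℝ) * (2 * Real.pi * k / M)) *
          (B - 2 - 2 * Real.cos (2 * Real.pi * k / M)) =
            (B - 2) * Real.cos ((j : ℝ) * (2 * Real.pi * k / M)) -
              Real.cos (((j + 1 : ℕ) : ℝ) * (2 * Real.pi * k / M)) -
              Real.cos (((j - 1 : ℕ) : ℝ) * (2 * Real.pi * k / M)) := by
          intro k _
          have e4 : ((j + 1 : ℕ) : ℝ) * (2 * Real.pi * k / M) =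
              (j : ℝ) * (2 * Real.pi * k / M) + 2 * Real.pi * k / M := by
            push_cast
            ring
          have e5 : ((j - 1 : ℕ) : ℝ) * (2 * Real.pi * k / M) =
              (j : ℝ) * (2 * Real.pi * k / M) - 2 * Real.pi * k / M := by
            rw [Nat.cast_sub (by omega : 1 ≤ j)]
            push_cast
            ring
          rw [e4, e5, Real.cos_add, Real.cos_sub]
          ring
        rw [Finset.sum_congr rfl e2, Finset.sum_sub_distrib, Finset.sum_sub_distrib,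
          ← Finset.mul_sum, m7_cos0 (by omega) (by omega), m7_cos0 (by omega) (by omega),
          m7_cos0 (by omega) (by omega)]
        ring
      rw [e1, hj j hj2 hjD]
      ring
  · simp
  · intro x y _ _ hx hy
    have e1 : ∑ i ∈ s, η i * (x + y) (φ i) = ∑ i ∈ s, η i * x (φ i) + ∑ i ∈ s, η i * y (φ i) := by
      rw [← Finset.sum_add_distrib]
      refine Finset.sum_congr rfl fun i _ => ?_
      rw [Pi.add_apply, mul_add]
    have e2 : ∑ k ∈ Finset.range M, (x + y) (2 * Real.pi * k / M) *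
        (B - 2 - 2 * Real.cos (2 * Real.pi * k / M)) =
        ∑ k ∈ Finset.range M, x (2 * Real.pi * k / M) *
          (B - 2 - 2 * Real.cos (2 * Real.pi * k / M)) +
        ∑ k ∈ Finset.range M, y (2 * Real.pi * k / M) *
          (B - 2 - 2 * Real.cos (2 * Real.pi * k / M)) := by
      rw [← Finset.sum_add_distrib]
      refine Finset.sum_congr rfl fun i _ => ?_
      rw [Pi.add_apply, add_mul]
    rw [e1, e2, hx, hy, Pi.add_apply]
    ring
  · intro c x _ hx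
    have e1 : ∑ i ∈ s, η i * (c • x) (φ i) = c * ∑ i ∈ s, η i * x (φ i) := by
      rw [Finset.mul_sum]
      refine Finset.sum_congr rfl fun i _ => ?_
      rw [Pi.smul_apply, smul_eq_mul]
      ring
    have e2 : ∑ k ∈ Finset.range M, (c • x) (2 * Real.pi * k / M) *
        (B - 2 - 2 * Real.cos (2 * Real.pi * k / M)) =
        c * ∑ k ∈ Finset.range M, x (2 * Real.pi * k / M) *
          (B - 2 - 2 * Real.cos (2 * Real.pi * k / M)) := by
      rw [Finset.mul_sum]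
      refine Finset.sum_congr rfl fun i _ => ?_
      rw [Pi.smul_apply, smul_eq_mul]
      ring
    rw [e1, e2, hx, Pi.smul_apply, smul_eq_mul]
    ring

theorem moment_G {ι : Type*} (s : Finset ι) (η φ : ι → ℝ) (B : ℝ) (hB : 4 ≤ B) (α : ℝ)
    (R J : ℕ) (hR : 1 ≤ R) (hJ : 1 ≤ J)
    (h0 : ∑ i ∈ s, η i = B) (h1 : ∑ i ∈ s, η i * Real.cos (φ i) = 1)
    (hj : ∀ j : ℕ, 2 ≤ j → j ≤ J * R ^ 2 → ∑ i ∈ s, η i * Real.cos ((j : ℝ) * φ i) = 2) :
    ∑ i ∈ s, η i * testG α R J (φ i) ≤ α * B - 1 + B * R / J := by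
  have hJR : 1 ≤ J * R ^ 2 := Nat.mul_pos hJ (by positivity)
  have hRJ : R * J ≤ J * R ^ 2 := by nlinarith
  rw [moment_identity s η φ B (J * R ^ 2) h0 h1 hj _ (TP_testG α R J hR hJ) (J * R ^ 2 + 2)
    (by omega) (by omega)]
  generalize hMdef : J * R ^ 2 + 2 = M
  have hM3 : 3 ≤ M := by omega
  have hMr : (0 : ℝ) < M := Nat.cast_pos.2 (by omega)
  have hJr : (0 : ℝ) < J := Nat.cast_pos.2 (by omega)
  have hG0 : testG α R J 0 = α := by
    have h2 : fejer J (((1 : ℕ) : ℝ) * 0) = 1 := by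
      have h3 := fejer_int J hJ 0
      rw [Int.cast_zero, mul_zero] at h3
      rw [mul_zero]
      exact h3
    unfold testG
    rw [Finset.prod_eq_zero (Finset.mem_Icc.2 ⟨le_rfl, hR⟩) (by rw [h2, sub_self]), mul_zero,
      add_zero]
  rw [hG0]
  have hk : ∀ k ∈ Finset.range M, testG α R J (2 * Real.pi * k / M) *
      (B - 2 - 2 * Real.cos (2 * Real.pi * k / M)) ≤
      (α * (B - 2) - 1) + (B - 2 - 2 * α) * Real.cos (((1 : ℕ) : ℝ) * (2 * Real.pi * k / M)) -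
        Real.cos (((2 : ℕ) : ℝ) * (2 * Real.pi * k / M)) +
        B * ∑ ρ ∈ Finset.Icc 1 R, fejer J ((ρ : ℝ) * (2 * Real.pi * k / M)) := by
    intro k _
    exact m7_point hB α R J _
  have hsum := Finset.sum_le_sum hk
  rw [Finset.sum_add_distrib, Finset.sum_sub_distrib, Finset.sum_add_distrib, Finset.sum_const,
    Finset.card_range, nsmul_eq_mul, ← Finset.mul_sum, m7_cos0 (by omega) (by omega),
    m7_cos0 (by omega) (by omega), ← Finset.mul_sum, Finset.sum_comm] at hsum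
  have hav : ∀ ρ ∈ Finset.Icc 1 R, ∑ k ∈ Finset.range M,
      fejer J ((ρ : ℝ) * (2 * Real.pi * k / M)) = M / J := by
    intro ρ hρ
    obtain ⟨h2, h3⟩ := Finset.mem_Icc.1 hρ
    have h4 : ρ * J < M := by
      have h5 : ρ * J ≤ R * J := Nat.mul_le_mul_right _ h3
      omega
    have h5 := fejer_avg_roots J hJ ρ M h2 h4
    field_simp at h5 ⊢
    linarith
  rw [Finset.sum_congr rfl hav, Finset.sum_const, Nat.card_Icc, Nat.add_sub_cancel,
    nsmul_eq_mul] at hsum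
  have hfin : (1 / (M : ℝ)) * ∑ k ∈ Finset.range M, testG α R J (2 * Real.pi * k / M) *
      (B - 2 - 2 * Real.cos (2 * Real.pi * k / M)) ≤
      (1 / (M : ℝ)) * ((M : ℝ) * (α * (B - 2) - 1) + (B - 2 - 2 * α) * 0 - 0 +
        B * (R * (M / J))) := mul_le_mul_of_nonneg_left hsum (by positivity)
  have hcalc : (1 / (M : ℝ)) * ((M : ℝ) * (α * (B - 2) - 1) + (B - 2 - 2 * α) * 0 - 0 +
        B * (R * (M / J))) = α * (B - 2) - 1 + B * R / J := by
    field_simp
    ring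
  rw [hcalc] at hfin
  linarith

end Pool.Agent.ST5
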