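import Pool.Agent.ST5.M.M6
import Pool.Agent.ST5.M.M7
import Pool.Agent.ST5.N.V4

/-!
ST6B row M8. The arithmetic part with an explicit bound. (Compare N/V5.lean.)

PROOF. α = 1/(2B), R = X^3, J = X^8, J R² = X^14. Take e, H, t from `galois_average`. For c ∈ H the angles φ_θ = 2π (t θ) c/e, weights η θ: Re θ^(j c) = cos(j φ_θ);
 the moments: j = 0: B; j = 1: 1; 2 ≤ j ≤ X^14: 2 (from `galois_average` with q = 1, 2, real parts). `moment_G`: ∑_θ η θ testG (φ_θ) ≤ α B - 1 + B R/J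
 = 1/2 - 1 + B/X^5 < 0 (X ≥ 10 m B ≥ 10 B, B > 4). Sum over c ∈ H (|H| ≥ 1): negative. But exchanging the sums it is ∑_θ η θ ∑_c testG(2π (t θ) c/e) ≥ 0 (`test_nonneg`).
-/

namespace Pool.Agent.ST5

/-- real part of a power of a root of unity -/
lemma M8_re (e : ℕ) (θ : ℂ) (t n : ℕ) (h : θ = Complex.exp (2 * Real.pi * Complex.I * t / e)) :
    (θ ^ n).re = Real.cos (2 * Real.pi * (t * n) / e) := by
  have h1 : θ ^ n = Complex.exp (((2 * Real.pi * (t * n) / e : ℝ) : ℂ) * Complex.I) := by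
    rw [h, ← Complex.exp_nat_mul]
    congr 1
    push_cast
    ring
  rw [h1, Complex.exp_ofReal_mul_I_re]

/-- the real part of a weighted power sum -/
lemma M8_sum (Θ : Finset ℂ) (η : ℂ → ℝ) (e : ℕ) (t : ℂ → ℕ)
    (hθ : ∀ θ ∈ Θ, θ = Complex.exp (2 * Real.pi * Complex.I * (t θ) / e)) (n : ℕ) (q : ℝ)
    (h : ∑ θ ∈ Θ, (η θ : ℂ) * θ ^ n = (q : ℂ)) :
    ∑ θ ∈ Θ, η θ * Real.cos (2 * Real.pi * (t θ * n) / e) = q := by
  have h1 := congrArg Complex.re h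
  rw [Complex.re_sum, Complex.ofReal_re] at h1
  rw [← h1]
  refine Finset.sum_congr rfl fun θ hθ' => ?_
  rw [Complex.re_ofReal_mul, M8_re e θ (t θ) n (hθ θ hθ')]

/-- the bound is negative -/
lemma M8_neg (m : ℕ) (hm1 : 1 ≤ m) (B : ℝ) (hB : 4 < B) (X : ℕ) (hX : 10 * m * B ≤ X) :
    1 / (2 * B) * B - 1 + B * ((X ^ 3 : ℕ) : ℝ) / ((X ^ 8 : ℕ) : ℝ) < 0 := by
  have hm : (1 : ℝ) ≤ m := by exact_mod_cast hm1
  have h1 : 10 * B ≤ X := by nlinarith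
  have hX1 : (1 : ℝ) ≤ X := by linarith
  have hX0 : (0 : ℝ) < X := by linarith
  have h2 : 1 / (2 * B) * B = 1 / 2 := by
    field_simp
  have h3 : B * ((X ^ 3 : ℕ) : ℝ) / ((X ^ 8 : ℕ) : ℝ) ≤ 1 / 10 := by
    rw [Nat.cast_pow, Nat.cast_pow, div_le_iff₀ (pow_pos hX0 8)]
    have h4 : (X : ℝ) ^ 4 ≤ (X : ℝ) ^ 8 := pow_le_pow_right₀ hX1 (by norm_num)
    have h5 : B * (X : ℝ) ^ 3 ≤ (X / 10 : ℝ) * (X : ℝ) ^ 3 :=
      mul_le_mul_of_nonneg_right (by linarith) (pow_pos hX0 3).le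
    have h6 : (X / 10 : ℝ) * (X : ℝ) ^ 3 = 1 / 10 * (X : ℝ) ^ 4 := by ring
    linarith
  linarith

theorem arithmetic_explicit (m : ℕ) (hm1 : 1 ≤ m) (B : ℝ) (hB : 4 < B) (X : ℕ)
    (hX : 10 * m * B ≤ X) (Θ : Finset ℂ) (η : ℂ → ℝ)
    (K : IntermediateField ℚ ℂ) (_ : FiniteDimensional ℚ K) (hK : Module.finrank ℚ K ≤ m)
    (h1 : ∀ θ ∈ Θ, 0 < η θ) (h2 : ∀ θ ∈ Θ, (η θ : ℂ) ∈ K)
    (h3 : ∀ θ ∈ Θ, ∃ n : ℕ, 0 < n ∧ θ ^ n = 1)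
    (h4 : ∑ θ ∈ Θ, η θ = B) (h5 : ∑ θ ∈ Θ, (η θ : ℂ) * θ = 1)
    (h6 : ∀ j, 2 ≤ j → j ≤ X ^ 14 → ∑ θ ∈ Θ, (η θ : ℂ) * θ ^ j = 2) : False := by
  obtain ⟨e, hne, H, hfin, t, htot, hθ, hgal⟩ := galois_average Θ η K m hK h2 h3
  have hA : ∀ c : H, ∑ θ ∈ Θ, η θ * Real.cos (2 * Real.pi *
      (t θ * ((((c : (ZMod e)ˣ)) : ZMod e).val : ℕ)) / e) = 1 := by
    intro c
    have h7 := hgal c c.2 1 1 (by simpa using h5)
    rw [one_mul] at h7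
    exact M8_sum Θ η e t hθ _ 1 (by simpa using h7)
  have hC : ∀ c : H, ∀ j : ℕ, 2 ≤ j → j ≤ X ^ 8 * (X ^ 3) ^ 2 →
      ∑ θ ∈ Θ, η θ * Real.cos ((j : ℝ) * (2 * Real.pi *
      (t θ * ((((c : (ZMod e)ˣ)) : ZMod e).val : ℕ)) / e)) = 2 := by
    intro c j hj1 hj2
    have hj3 : j ≤ X ^ 14 := by
      rw [← pow_mul, ← pow_add] at hj2
      exact hj2
    have h7 := hgal c c.2 j 2 (by simpa using h6 _ hj1 hj3)
    have h8 := M8_sum Θ η e t hθ _ 2 (by simpa using h7)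
    refine Eq.trans ?_ h8
    refine Finset.sum_congr rfl fun θ _ => ?_
    congr 2
    push_cast
    ring
  have hX0 : 1 ≤ X := by
    by_contra hX0
    have hX1 : X = 0 := by omega
    rw [hX1, Nat.cast_zero] at hX
    have hm : (1 : ℝ) ≤ m := by exact_mod_cast hm1
    nlinarith
  have hle : ∀ c : H, ∑ θ ∈ Θ, η θ * testG (1 / (2 * B)) (X ^ 3) (X ^ 8) (2 * Real.pi *
      (t θ * ((((c : (ZMod e)ˣ)) : ZMod e).val : ℕ)) / e) ≤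
      1 / (2 * B) * B - 1 + B * ((X ^ 3 : ℕ) : ℝ) / ((X ^ 8 : ℕ) : ℝ) := fun c =>
    moment_G Θ η (fun θ => 2 * Real.pi *
      (t θ * ((((c : (ZMod e)ˣ)) : ZMod e).val : ℕ)) / e) B hB.le (1 / (2 * B)) (X ^ 3) (X ^ 8)
      (Nat.one_le_pow _ _ hX0) (Nat.one_le_pow _ _ hX0) h4 (hA c) (hC c)
  have hneg := M8_neg m hm1 B hB X hX
  have hpos : 0 ≤ ∑ θ ∈ Θ, η θ * ∑ c : H, testG (1 / (2 * B)) (X ^ 3) (X ^ 8) (2 * Real.pi *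
      (t θ * ((((c : (ZMod e)ˣ)) : ZMod e).val : ℕ)) / e) :=
    Finset.sum_nonneg fun θ hθ' => mul_nonneg (h1 θ hθ').le
      (test_nonneg m hm1 B hB X hX e H htot (t θ))
  have hswap : ∑ θ ∈ Θ, η θ * ∑ c : H, testG (1 / (2 * B)) (X ^ 3) (X ^ 8) (2 * Real.pi *
      (t θ * ((((c : (ZMod e)ˣ)) : ZMod e).val : ℕ)) / e) =
      ∑ c : H, ∑ θ ∈ Θ, η θ * testG (1 / (2 * B)) (X ^ 3) (X ^ 8) (2 * Real.pi *
      (t θ * ((((c : (ZMod e)ˣ)) : ZMod e).val : ℕ)) / e) := by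
    simp only [Finset.mul_sum (s := (Finset.univ : Finset H))]
    rw [Finset.sum_comm]
  rw [hswap] at hpos
  have hlt : ∑ c : H, ∑ θ ∈ Θ, η θ * testG (1 / (2 * B)) (X ^ 3) (X ^ 8) (2 * Real.pi *
      (t θ * ((((c : (ZMod e)ˣ)) : ZMod e).val : ℕ)) / e) < 0 := by
    refine Finset.sum_neg (fun c _ => lt_of_le_of_lt (hle c) hneg) ⟨1, Finset.mem_univ _⟩
  linarith

end Pool.Agent.ST5
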