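import Mathlib

/-!
ST6B: the Fejér kernel, the test function, cosine polynomials (definitions).
-/

namespace Pool.Agent.ST5

open Real in
/-- The Fejér kernel, normalised to the value `1` at `0`. -/
noncomputable def fejer (J : ℕ) (φ : ℝ) : ℝ :=
  (1 / (J : ℝ) ^ 2) * ‖∑ i ∈ Finset.range J, Complex.exp ((i : ℂ) * φ * Complex.I)‖ ^ 2

/-- The test function. -/
noncomputable def testG (α : ℝ) (R J : ℕ) (φ : ℝ) : ℝ :=
  α + Real.cos φ * ∏ ρ ∈ Finset.Icc 1 R, (1 - fejer J ((ρ : ℝ) * φ))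

/-- Cosine polynomials of degree at most `D`. -/
def TP (D : ℕ) : Submodule ℝ (ℝ → ℝ) :=
  Submodule.span ℝ {f | ∃ j : ℕ, j ≤ D ∧ f = fun φ => Real.cos ((j : ℝ) * φ)}

end Pool.Agent.ST5
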