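import Pool.Agent.ST5.M.M8
import Pool.Agent.ST5.Q.X3

/-!
ST6B: the main theorem with an explicit bound.
-/

namespace Pool.Agent.ST5

theorem supertransitivity_lt {T : Type*} [Ring T] [StarRing T] [Algebra ℂ T] [StarModule ℂ T]
    (S : SubfactorPlanarAlgebra T) (hfd : S.FiniteDepth) (hδ : 2 < S.δ) (N : ℕ)
    (hN : S.Supertransitive N) :
    N < ⌈10 * (minpoly ℚ (S.δ ^ 2)).natDegree * S.δ ^ 2⌉₊ ^ 14 := by
  by_contra hlt
  have hlt' := not_lt.1 hlt
  set m := (minpoly ℚ (S.δ ^ 2)).natDegree with hm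
  set X := ⌈10 * (m : ℝ) * S.δ ^ 2⌉₊ with hX
  have hB : 4 < S.δ ^ 2 := by nlinarith
  have hX0 : 10 * (m : ℝ) * S.δ ^ 2 ≤ X := Nat.le_ceil _
  have hst : ∀ N', N' ≤ N → S.Supertransitive N' := fun N' h k hk => hN k (by omega)
  rcases Nat.eq_zero_or_pos N with h0 | h0
  · -- N = 0
    have hX1 : X = 0 := by
      by_contra h
      have : 1 ≤ X ^ 14 := Nat.one_le_pow _ _ (Nat.pos_of_ne_zero h)
      omega
    have hm0 : m = 0 := by
      by_contra h
      have h1 : (1 : ℝ) ≤ m := by exact_mod_cast Nat.pos_of_ne_zero h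
      have h2 : (X : ℝ) = 0 := by rw [hX1]; simp
      nlinarith
    have hint : IsIntegral ℚ (S.δ ^ 2) := by
      obtain ⟨Q⟩ := SubfactorPlanarAlgebra.exists_system hfd
      have := delta_sq_integral Q.G Q.o Q.d Q.d_o S.δ Q.pf
      exact this.tower_top
    have := minpoly.natDegree_pos hint
    omega
  · obtain ⟨Θ, η, K, hK, hKm, h1, h2, h3, h4, h5, h6⟩ :=
      S.spectral_measure hfd hδ N h0 hN m le_rfl
    have hm1 : 1 ≤ m := by
      have : 0 < Module.finrank ℚ K := Module.finrank_pos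
      omega
    exact arithmetic_explicit m hm1 (S.δ ^ 2) hB X hX0 Θ η K hK hKm h1 h2 h3 h4 h5
      (fun j hj hjX => h6 j hj (by omega))

end Pool.Agent.ST5
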